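import Pool.Agent.Q35.ST.Stm

set_option autoImplicit false

namespace Pool.Agent.Q16.ST

open MvPolynomial Pool.Agent.Q35.ST

theorem exists_mul_pow_mem {R : Type} [CommRing R] (I P : Ideal R) (hP : P ∈ I.minimalPrimes)
    (f : R) (hf : f ∈ P) : ∃ n : ℕ, ∃ s, s ∉ P ∧ s * f ^ n ∈ I := by
  have hPp : P.IsPrime := hP.1.1
  by_contra hne
  push Not at hne
  have hdis : Disjoint (I : Set R) (P.primeCompl ⊔ Submonoid.powers f : Submonoid R) := by
    rw [Set.disjoint_left]
    intro x hx hx2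
    obtain ⟨s, hs, y, ⟨n, rfl⟩, rfl⟩ := Submonoid.mem_sup.1 hx2
    exact hne n s hs hx
  obtain ⟨Q, hQ, hIQ, hd⟩ := Ideal.exists_le_prime_disjoint I _ hdis
  have hQP : Q ≤ P := by
    intro x hx
    by_contra hxP
    exact Set.disjoint_left.1 hd hx (Submonoid.mem_sup_left hxP)
  have hPQ : P ≤ Q := hP.2 ⟨hQ, hIQ⟩ hQP
  exact Set.disjoint_left.1 hd (hPQ hf) (Submonoid.mem_sup_right (Submonoid.mem_powers f))

theorem mn : S_MIN := by
  intro σ k _ _ D I P hI hP f hf
  classical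
  have hPp : P.IsPrime := hP.1.1
  have hIP : I ≤ P := hP.1.2
  have key := exists_mul_pow_mem I P hP f hf
  obtain ⟨s, hs, hsf⟩ := Nat.find_spec key
  set n := Nat.find key with hn
  by_contra hD
  have hn0 : n ≠ 0 := by
    intro h0
    rw [h0, pow_zero, mul_one] at hsf
    exact hs (hIP hsf)
  have h1 : D (s * f ^ n) ∈ I := hI _ hsf
  have h2 : s * D (s * f ^ n) ∈ I := I.mul_mem_left _ h1
  rw [D.leibniz, D.leibniz_pow] at h2
  have h3 : s * (s • (n • f ^ (n - 1) • D f) + f ^ n • D s) =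
      (n : MvPolynomial σ k) * (s * s * D f * f ^ (n - 1)) + D s * (s * f ^ n) := by
    simp only [smul_eq_mul, nsmul_eq_mul]
    ring
  rw [h3] at h2
  have h4 : (n : MvPolynomial σ k) * (s * s * D f * f ^ (n - 1)) ∈ I :=
    (Ideal.add_mem_iff_left I (I.mul_mem_left _ hsf)).1 h2
  have h5 : s * s * D f * f ^ (n - 1) ∈ I := by
    have h6 := I.mul_mem_left (C ((n : k)⁻¹)) h4
    have h7 : C ((n : k)⁻¹) * ((n : MvPolynomial σ k) * (s * s * D f * f ^ (n - 1))) =
        s * s * D f * f ^ (n - 1) := by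
      rw [← mul_assoc]
      have h8 : (C ((n : k)⁻¹) : MvPolynomial σ k) * (n : MvPolynomial σ k) = 1 := by
        rw [← map_natCast (C : k →+* MvPolynomial σ k), ← map_mul,
          inv_mul_cancel₀ (Nat.cast_ne_zero.2 hn0), map_one]
      rw [h8, one_mul]
    rwa [h7] at h6
  have h6 : s * s * D f ∉ P := by
    intro h
    rcases hPp.mem_or_mem h with h | h
    · rcases hPp.mem_or_mem h with h | h <;> exact hs h
    · exact hD h
  exact Nat.find_min key (m := n - 1) (by omega) ⟨_, h6, h5⟩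

end Pool.Agent.Q16.ST
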