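import Pool.Agent.Q16.ST.AL
import Pool.Agent.Q16.ST.MN

set_option autoImplicit false

namespace Pool.Agent.Q16.ST

open MvPolynomial Pool.Agent.Q35.ST

section

variable {κ : Type} [DecidableEq κ] {n : κ → ℕ} {k : Type}

theorem upd_same [Field k] (z : Pc n → k) (l : κ) (y : Fin (n l + 1) → k) (i : Fin (n l + 1)) :
    upd z l y ⟨l, i⟩ = y i := by
  simp [upd]

theorem upd_of_ne {R : Type} (z : Pc n → R) (l : κ) (y : Fin (n l + 1) → R) (s : Pc n)
    (h : s.1 ≠ l) : upd z l y s = z s := by
  simp [upd, Function.update_of_ne h]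

theorem upd_self' {R : Type} (z : Pc n → R) (l : κ) : upd z l (fun i => z ⟨l, i⟩) = z := by
  funext s
  obtain ⟨j, i⟩ := s
  by_cases h : j = l
  · subst h; simp [upd]
  · rw [upd_of_ne _ _ _ _ h]

theorem upd_same' {R : Type} (z : Pc n → R) (l : κ) (y : Fin (n l + 1) → R)
    (i : Fin (n l + 1)) : upd z l y ⟨l, i⟩ = y i := by
  simp [upd]

variable [Field k]

/-- the restriction to the factor `l`, the other coordinates being those of `z` -/
noncomputable def res (z : Pc n → k) (l : κ) :
    MvPolynomial (Pc n) k →ₐ[k] MvPolynomial (Fin (n l + 1)) k :=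
  aeval (upd (fun s => C (z s)) l (fun i => X i))

theorem res_X_same (z : Pc n → k) (l : κ) (i : Fin (n l + 1)) :
    res z l (X ⟨l, i⟩) = X i := by
  unfold res; rw [aeval_X, upd_same']

theorem res_X_ne (z : Pc n → k) (l : κ) (s : Pc n) (h : s.1 ≠ l) :
    res z l (X s) = C (z s) := by
  unfold res; rw [aeval_X, upd_of_ne _ _ _ _ h]

theorem res_C (z : Pc n → k) (l : κ) (c : k) : res z l (C c) = C c :=
  (res z l).commutes c

theorem eval_res (z : Pc n → k) (l : κ) (y : Fin (n l + 1) → k) (f : MvPolynomial (Pc n) k) :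
    eval y (res z l f) = eval (upd z l y) f := by
  induction f using MvPolynomial.induction_on with
  | C c => rw [res_C, eval_C, eval_C]
  | add p q hp hq => rw [map_add, map_add, map_add, hp, hq]
  | mul_X p s hp =>
    rw [map_mul, map_mul, map_mul, hp, eval_X]
    congr 1
    obtain ⟨j, i⟩ := s
    by_cases h : j = l
    · subst h
      rw [res_X_same, eval_X, upd_same']
    · rw [res_X_ne _ _ _ h, eval_C, upd_of_ne _ _ _ _ h]

theorem res_rename (z : Pc n → k) (l : κ) (g : MvPolynomial (Fin (n l + 1)) k) :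
    res z l (rename (fun i => (⟨l, i⟩ : Pc n)) g) = g := by
  induction g using MvPolynomial.induction_on with
  | C c => rw [rename_C, res_C]
  | add p q hp hq => rw [map_add, map_add, hp, hq]
  | mul_X p s hp => rw [map_mul, map_mul, hp, rename_X, res_X_same]

theorem pderiv_res (z : Pc n → k) (l : κ) (i : Fin (n l + 1)) (f : MvPolynomial (Pc n) k) :
    pderiv i (res z l f) = res z l (pderiv ⟨l, i⟩ f) := by
  classical
  induction f using MvPolynomial.induction_on with
  | C c => rw [res_C, pderiv_C, pderiv_C, map_zero]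
  | add p q hp hq => rw [map_add, map_add, map_add, map_add, hp, hq]
  | mul_X p s hp =>
    rw [map_mul, pderiv_mul, pderiv_mul, map_add, map_mul, map_mul, hp]
    congr 2
    obtain ⟨j, i'⟩ := s
    by_cases h : j = l
    · subst h
      rw [res_X_same, pderiv_X, pderiv_X]
      by_cases h2 : i' = i
      · subst h2; simp
      · rw [Pi.single_eq_of_ne h2, Pi.single_eq_of_ne, map_zero]
        intro h3
        simp only [Sigma.mk.injEq, heq_eq_eq, true_and] at h3
        exact h2 h3
    · rw [res_X_ne _ _ _ h, pderiv_C, pderiv_X_of_ne, map_zero]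
      intro h3
      exact h (congrArg Sigma.fst h3)

end

theorem ll (al : S_AL) (mn : S_MIN) : S_LL := by
  intro κ _ _ n k _ _ _ F P hP hF l hst α hα hαP z hz ⟨a, ha⟩ y hy
  classical
  let φ := res z l
  have hφs : Function.Surjective φ := fun g => ⟨_, res_rename z l g⟩
  set I : Ideal (MvPolynomial (Fin (n l + 1)) k) := P.map φ with hI
  have hmem : ∀ g, g ∈ I ↔ ∃ f ∈ P, φ f = g := fun g =>
    Ideal.mem_map_iff_of_surjective φ hφs
  let zl : Fin (n l + 1) → k := fun i => z ⟨l, i⟩
  have hzl : ∀ f, eval zl (φ f) = eval z f := by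
    intro f
    rw [eval_res, upd_self']
  let M : Ideal (MvPolynomial (Fin (n l + 1)) k) := RingHom.ker (eval zl)
  have hM : M.IsPrime := RingHom.ker_isPrime _
  have hIM : I ≤ M := by
    intro g hg
    obtain ⟨f, hf, rfl⟩ := (hmem g).1 hg
    show eval zl (φ f) = 0
    rw [hzl]
    exact hz f hf
  obtain ⟨Q, hQ, hQM⟩ := Ideal.exists_minimalPrimes_le hIM
  have hQp : Q.IsPrime := hQ.1.1
  have hIQ : I ≤ Q := hQ.1.2
  have hQst : ∀ i j : Fin (n l + 1), ∀ f ∈ Q,
      pderiv i (φ F) * pderiv j f - pderiv j (φ F) * pderiv i f ∈ Q := by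
    intro i j f hf
    have h1 := mn (Fin (n l + 1)) k ((pderiv i (φ F)) • pderiv j - (pderiv j (φ F)) • pderiv i)
      I Q ?_ hQ f hf
    · exact h1
    · intro g hg
      obtain ⟨f', hf', rfl⟩ := (hmem g).1 hg
      refine (hmem _).2 ⟨pderiv ⟨l, i⟩ F * pderiv ⟨l, j⟩ f' - pderiv ⟨l, j⟩ F * pderiv ⟨l, i⟩ f',
        hst i j f' hf', ?_⟩
      show res z l _ = pderiv i (res z l F) * pderiv j (res z l f') -
        pderiv j (res z l F) * pderiv i (res z l f')
      rw [pderiv_res, pderiv_res, pderiv_res, pderiv_res, map_sub, map_mul, map_mul]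
  have haQ : pderiv a (φ F) ∉ Q := by
    intro h
    apply ha
    have h2 : eval zl (pderiv a (φ F)) = 0 := hQM h
    have h3 : pderiv a (φ F) = φ (pderiv ⟨l, a⟩ F) := pderiv_res z l a F
    rwa [h3, hzl] at h2
  obtain ⟨g, hg, -, hQg⟩ := al (Fin (n l + 1)) k (φ F) Set.univ Q hQp
    (hIQ ((hmem _).2 ⟨F, hF, rfl⟩)) (by
      intro f hf hv
      have h1 : f.vars = ∅ := Finset.eq_empty_of_forall_notMem fun i hi => hv i hi trivial
      have h2 : f = C (coeff 0 f) := vars_eq_empty_iff_eq_C.1 h1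
      have h3 : eval zl f = 0 := hQM hf
      rw [h2, eval_C] at h3
      rw [h2, h3, map_zero]) a (Set.mem_univ a) haQ (fun b _ f hf => hQst a b f hf)
  have hαI : α ∈ I := (hmem _).2 ⟨_, hαP, res_rename z l α⟩
  have hgα : g ∣ α := by
    rw [← Ideal.mem_span_singleton, ← hQg]
    exact hIQ hαI
  have hass : Associated g α := hg.associated_of_dvd hα hgα
  intro f hf
  rw [← eval_res]
  have h1 : g ∣ φ f := by
    rw [← Ideal.mem_span_singleton, ← hQg]
    exact hIQ ((hmem _).2 ⟨f, hf, rfl⟩)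
  obtain ⟨c, hc⟩ := hass.dvd_iff_dvd_left.1 h1
  show eval y (φ f) = 0
  rw [hc, map_mul, hy, zero_mul]

end Pool.Agent.Q16.ST
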