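import Pool.Agent.Q16.ST.LN
import Pool.Agent.Q16.ST.LL

set_option autoImplicit false
set_option linter.unusedSectionVars false

namespace Pool.Agent.Q16.ST

open MvPolynomial Pool.Agent.Q35.ST

theorem map_wh {σ τ M M' k : Type} [Field k] [AddCommMonoid M] [AddCommMonoid M'] (w : σ → M)
    (w' : τ → M') (L : M →+ M') (φ : MvPolynomial σ k →ₐ[k] MvPolynomial τ k)
    (h : ∀ s, IsWeightedHomogeneous w' (φ (X s)) (L (w s))) (f : MvPolynomial σ k) (μ : M)
    (hf : IsWeightedHomogeneous w f μ) : IsWeightedHomogeneous w' (φ f) (L μ) := by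
  rw [← mem_weightedHomogeneousSubmodule]
  rw [f.as_sum, map_sum]
  refine Submodule.sum_mem _ fun d hd => ?_
  rw [mem_weightedHomogeneousSubmodule]
  have hw := hf (mem_support_iff.1 hd)
  rw [monomial_eq, map_mul, Finsupp.prod, map_prod]
  have h1 : IsWeightedHomogeneous w' (φ (C (coeff d f))) 0 := by
    have : φ (C (coeff d f)) = C (coeff d f) := φ.commutes _
    rw [this]
    exact isWeightedHomogeneous_C _ _
  have h2 : IsWeightedHomogeneous w' (∏ s ∈ d.support, φ (X s ^ d s))
      (∑ s ∈ d.support, d s • L (w s)) := by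
    refine IsWeightedHomogeneous.prod _ _ _ fun s _ => ?_
    rw [map_pow]
    exact (h s).pow _
  have h3 := h1.mul h2
  rw [zero_add] at h3
  have h4 : ∑ s ∈ d.support, d s • L (w s) = L μ := by
    rw [← hw, Finsupp.weight_apply, Finsupp.sum, map_sum]
    refine Finset.sum_congr rfl fun s _ => ?_
    rw [map_nsmul]
  rwa [h4] at h3

section

variable {κ : Type} [DecidableEq κ] {n : κ → ℕ} {k : Type} [Field k]

/-- the substitution of the coordinates of `z0` outside `T` -/
noncomputable def phi (T : Finset κ) (z0 : Pc n → k) :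
    MvPolynomial (Pc n) k →ₐ[k] MvPolynomial {s : Pc n // s.1 ∈ T} k :=
  aeval (fun s => if h : s.1 ∈ T then X ⟨s, h⟩ else C (z0 s))

/-- the inclusion -/
noncomputable def psi (n : κ → ℕ) (k : Type) [Field k] (T : Finset κ) :
    MvPolynomial {s : Pc n // s.1 ∈ T} k →ₐ[k] MvPolynomial (Pc n) k :=
  rename Subtype.val

theorem phi_X (T : Finset κ) (z0 : Pc n → k) (s : {s : Pc n // s.1 ∈ T}) :
    phi T z0 (X s.1) = X s := by
  unfold phi; rw [aeval_X, dif_pos s.2]

theorem phi_X_ne (T : Finset κ) (z0 : Pc n → k) (s : Pc n) (h : s.1 ∉ T) :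
    phi T z0 (X s) = C (z0 s) := by
  unfold phi; rw [aeval_X, dif_neg h]

theorem phi_C (T : Finset κ) (z0 : Pc n → k) (c : k) : phi T z0 (C c) = C c :=
  (phi T z0).commutes c

theorem psi_X (T : Finset κ) (s : {s : Pc n // s.1 ∈ T}) : psi n k T (X s) = X s.1 :=
  rename_X _ _

theorem psi_C (T : Finset κ) (c : k) : psi n k T (C c) = C c := rename_C _ _

theorem psi_injective (T : Finset κ) : Function.Injective (psi n k T) :=
  rename_injective _ Subtype.val_injective

theorem phi_psi (T : Finset κ) (z0 : Pc n → k) (f : MvPolynomial {s : Pc n // s.1 ∈ T} k) :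
    phi T z0 (psi n k T f) = f := by
  induction f using MvPolynomial.induction_on with
  | C c => rw [psi_C, phi_C]
  | add p q hp hq => rw [map_add, map_add, hp, hq]
  | mul_X p s hp => rw [map_mul, map_mul, hp, psi_X, phi_X]

theorem sub_psi_phi_mem (T : Finset κ) (z0 : Pc n → k) (f : MvPolynomial (Pc n) k) :
    f - psi n k T (phi T z0 f) ∈ Fro (T : Set κ) z0 := by
  induction f using MvPolynomial.induction_on with
  | C c => rw [phi_C, psi_C, sub_self]; exact Ideal.zero_mem _
  | add p q hp hq =>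
    rw [map_add, map_add, add_sub_add_comm]
    exact Ideal.add_mem _ hp hq
  | mul_X p s hp =>
    rw [map_mul, map_mul]
    have h1 : X s - psi n k T (phi T z0 (X s)) ∈ Fro (T : Set κ) z0 := by
      by_cases h : s.1 ∈ T
      · have h2 := phi_X T z0 ⟨s, h⟩
        have h3 := psi_X (k := k) T ⟨s, h⟩
        simp only at h2 h3
        rw [h2, h3, sub_self]
        exact Ideal.zero_mem _
      · rw [phi_X_ne _ _ _ h, psi_C]
        exact Ideal.subset_span ⟨s, h, rfl⟩
    have h2 : p * X s - psi n k T (phi T z0 p) * psi n k T (phi T z0 (X s)) =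
        (p - psi n k T (phi T z0 p)) * X s +
          psi n k T (phi T z0 p) * (X s - psi n k T (phi T z0 (X s))) := by ring
    rw [h2]
    exact Ideal.add_mem _ (Ideal.mul_mem_right _ _ hp) (Ideal.mul_mem_left _ _ h1)

theorem pderiv_phi (T : Finset κ) (z0 : Pc n → k) (s : {s : Pc n // s.1 ∈ T})
    (f : MvPolynomial (Pc n) k) : pderiv s (phi T z0 f) = phi T z0 (pderiv s.1 f) := by
  classical
  induction f using MvPolynomial.induction_on with
  | C c => rw [phi_C, pderiv_C, pderiv_C, map_zero]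
  | add p q hp hq => rw [map_add, map_add, map_add, map_add, hp, hq]
  | mul_X p t hp =>
    rw [map_mul, pderiv_mul, pderiv_mul, map_add, map_mul, map_mul, hp]
    congr 2
    by_cases h : t.1 ∈ T
    · have h2 := phi_X T z0 ⟨t, h⟩
      simp only at h2
      rw [h2, pderiv_X, pderiv_X]
      by_cases h3 : t = s.1
      · have h4 : (⟨t, h⟩ : {s : Pc n // s.1 ∈ T}) = s := Subtype.ext h3
        rw [h4, h3]; simp
      · have h4 : (⟨t, h⟩ : {s : Pc n // s.1 ∈ T}) ≠ s := fun h5 => h3 (congrArg Subtype.val h5)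
        rw [Pi.single_eq_of_ne h4, Pi.single_eq_of_ne h3, map_zero]
    · have h3 : t ≠ s.1 := by rintro rfl; exact h s.2
      rw [phi_X_ne _ _ _ h, pderiv_C, pderiv_X_of_ne h3, map_zero]

theorem pderiv_psi (T : Finset κ) (s : {s : Pc n // s.1 ∈ T})
    (f : MvPolynomial {s : Pc n // s.1 ∈ T} k) :
    pderiv s.1 (psi n k T f) = psi n k T (pderiv s f) :=
  pderiv_rename Subtype.val_injective s f

theorem psi_phi_wh (T : Finset κ) (z0 : Pc n → k) (f : MvPolynomial (Pc n) k) (D : κ → ℕ)
    (hf : IsWeightedHomogeneous (wT n T) f D) :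
    IsWeightedHomogeneous (wT n T) (psi n k T (phi T z0 f)) D := by
  refine map_wh (wT n T) (wT n T) (AddMonoidHom.id _) ((psi n k T).comp (phi T z0)) ?_ f D hf
  intro s
  rw [AlgHom.comp_apply]
  by_cases h : s.1 ∈ T
  · have h2 := phi_X T z0 ⟨s, h⟩
    have h3 := psi_X (k := k) T ⟨s, h⟩
    simp only at h2 h3
    rw [h2, h3]
    exact isWeightedHomogeneous_X _ _ _
  · rw [phi_X_ne _ _ _ h, psi_C]
    have h3 : wT n T s = 0 := by simp [wT, h]
    rw [h3]
    exact isWeightedHomogeneous_C _ _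

theorem res_isHomogeneous (T : Finset κ) (m : κ) (hm : m ∈ T) (b : Pc n → k)
    (G : MvPolynomial (Pc n) k) (D : κ → ℕ) (hG : IsWeightedHomogeneous (wT n T) G D) :
    (res b m G).IsHomogeneous (D m) := by
  refine map_wh (wT n T) (1 : Fin (n m + 1) → ℕ) (Pi.evalAddMonoidHom (fun _ : κ => ℕ) m)
    (res b m) ?_ G D hG
  rintro ⟨j, i⟩
  by_cases h : j = m
  · subst h
    rw [res_X_same]
    have h3 : (Pi.evalAddMonoidHom (fun _ : κ => ℕ) j) (wT n T ⟨j, i⟩) =
        (1 : Fin (n j + 1) → ℕ) i := by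
      simp [wT, hm]
    rw [h3]
    exact isWeightedHomogeneous_X _ _ _
  · rw [res_X_ne _ _ _ h]
    have h3 : (Pi.evalAddMonoidHom (fun _ : κ => ℕ) m) (wT n T ⟨j, i⟩) = 0 := by
      by_cases h4 : j ∈ T
      · simp [wT, h4, Pi.single_eq_of_ne (Ne.symm h)]
      · simp [wT, h4]
    rw [h3]
    exact isWeightedHomogeneous_C _ _

end

theorem a1 (al : S_AL) (ln : S_LN) (inf' : S_INF) : S_A1 := by
  intro κ _ _ n k _ _ _ F d hF hd hn T z0 P hyp l hl hfree f hf
  classical
  have hP := hyp.prime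
  have hFroP : Fro (T : Set κ) z0 ≤ P := by
    unfold Fro
    rw [Ideal.span_le]
    rintro _ ⟨s, hs, rfl⟩
    exact hyp.fro s hs
  set P0 : Ideal (MvPolynomial {s : Pc n // s.1 ∈ T} k) := P.comap (psi n k T) with hP0
  have hmem : ∀ f, f ∈ P ↔ phi T z0 f ∈ P0 := by
    intro f
    have h1 := hFroP (sub_psi_phi_mem T z0 f)
    rw [hP0, Ideal.mem_comap]
    constructor
    · intro h
      have h2 := P.sub_mem h h1
      rwa [sub_sub_cancel] at h2
    · intro h
      have h2 := P.add_mem h1 h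
      rwa [sub_add_cancel] at h2
  have hP0p : P0.IsPrime := Ideal.comap_isPrime (psi n k T) P
  obtain ⟨i, hi⟩ := hyp.ns l hl
  set a : {s : Pc n // s.1 ∈ T} := ⟨⟨l, i⟩, hl⟩ with ha
  have hpa : pderiv a (phi T z0 F) ∉ P0 := by
    rw [pderiv_phi, ← hmem]
    exact hi
  obtain ⟨g, hg, hgF, hPg⟩ := al {s : Pc n // s.1 ∈ T} k (phi T z0 F) {s | s.1.1 = l} P0 hP0p
    ((hmem F).1 hyp.mem) (by
      intro q hq hv
      have h1 : psi n k T q = 0 := by
        refine hfree _ hq fun s hs => ?_
        obtain ⟨t, ht, rfl⟩ := Finset.mem_image.1 (vars_rename _ _ hs)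
        exact ⟨t.2, hv t ht⟩
      exact psi_injective T (h1.trans (map_zero _).symm)) a rfl hpa (by
      rintro ⟨⟨j, i'⟩, hj⟩ hb q hq
      have hb' : j = l := hb
      subst hb'
      have h1 := hyp.std j hj i i' (psi n k T q) hq
      have h2 := (hmem _).1 h1
      rw [map_sub, map_mul, map_mul] at h2
      have e1 := pderiv_phi T z0 a F
      have e2 := pderiv_phi T z0 ⟨⟨j, i'⟩, hj⟩ F
      have e3 := pderiv_phi T z0 a (psi n k T q)
      have e4 := pderiv_phi T z0 ⟨⟨j, i'⟩, hj⟩ (psi n k T q)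
      rw [phi_psi] at e3 e4
      rw [e1, e2, e3, e4]
      exact h2)
  obtain ⟨h0, hh0⟩ := hgF
  by_cases hu : IsUnit h0
  · -- `F₀` generates `P₀`
    have h1 : phi T z0 f ∈ P0 := (hmem f).1 hf
    rw [hPg, Ideal.mem_span_singleton] at h1
    have h2 : phi T z0 F ∣ phi T z0 f := by
      rw [hh0]
      exact (hu.mul_right_dvd).2 h1
    obtain ⟨t, ht⟩ := h2
    refine ⟨psi n k T t, ?_⟩
    have h3 := sub_psi_phi_mem T z0 f
    have h4 := sub_psi_phi_mem T z0 F
    have h5 : f - F * psi n k T t = (f - psi n k T (phi T z0 f)) -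
        (F - psi n k T (phi T z0 F)) * psi n k T t := by
      rw [ht, map_mul]; ring
    rw [h5]
    exact Ideal.sub_mem _ h3 (Ideal.mul_mem_right _ _ h4)
  exfalso
  set G := psi n k T g with hG
  set H := psi n k T h0 with hH
  have hF0 : psi n k T (phi T z0 F) = G * H := by rw [hh0, map_mul]
  have hF0ne : phi T z0 F ≠ 0 := by
    intro h
    rw [h, map_zero] at hpa
    exact hpa (Ideal.zero_mem _)
  have hh0ne : h0 ≠ 0 := by
    rintro rfl
    rw [mul_zero] at hh0
    exact hF0ne hh0
  have hGne : G ≠ 0 := fun h => hg.ne_zero (psi_injective T (h.trans (map_zero _).symm))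
  have hHne : H ≠ 0 := fun h => hh0ne (psi_injective T (h.trans (map_zero _).symm))
  have hGP : G ∈ P := by
    have : g ∈ P0 := by rw [hPg]; exact Ideal.mem_span_singleton_self g
    exact this
  -- `G` is multihomogeneous
  have hsupp : ∀ q : MvPolynomial (Pc n) k, (∀ s ∈ q.vars, s.1 ∈ T) → ∃ q0, psi n k T q0 = q := by
    intro q hq
    have h1 : q ∈ supported k {s : Pc n | s.1 ∈ T} := by
      rw [mem_supported]
      intro s hs
      exact hq s hs
    rw [supported_eq_range_rename] at h1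
    exact h1
  have hvG : ∀ s ∈ G.vars, s.1 ∈ T := by
    intro s hs
    obtain ⟨t, _, rfl⟩ := Finset.mem_image.1 (vars_rename _ _ hs)
    exact t.2
  have hvH : ∀ s ∈ H.vars, s.1 ∈ T := by
    intro s hs
    obtain ⟨t, _, rfl⟩ := Finset.mem_image.1 (vars_rename _ _ hs)
    exact t.2
  obtain ⟨dG, hdG⟩ := ne_zero_iff.1 hGne
  set D : κ → ℕ := Finsupp.weight (wT n T) dG with hD
  have hGw : IsWeightedHomogeneous (wT n T) G D := by
    set GD := weightedHomogeneousComponent (wT n T) D G with hGD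
    have h1 : GD ∈ P := component_mem T P hyp.ste G hGP D
    have hc0 : coeff dG GD = coeff dG G := by
      rw [hGD, coeff_weightedHomogeneousComponent, if_pos rfl]
    have hGD0 : GD ≠ 0 := by
      rw [ne_zero_iff]
      exact ⟨dG, by rw [hc0]; exact hdG⟩
    have hsub : GD.support ⊆ G.support := by
      rw [hGD, support_weightedHomogeneousComponent]
      exact Finset.filter_subset _ _
    obtain ⟨q0, hq0⟩ := hsupp GD (by
      intro s hs
      obtain ⟨e, he, hse⟩ := (mem_vars_iff_mem_support _).1 hs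
      exact hvG s ((mem_vars_iff_mem_support _).2 ⟨e, hsub he, hse⟩))
    have h2 : q0 ∈ P0 := by
      rw [hP0, Ideal.mem_comap, hq0]; exact h1
    rw [hPg, Ideal.mem_span_singleton] at h2
    obtain ⟨t, ht⟩ := h2
    have h3 : GD = G * psi n k T t := by rw [← hq0, ht, map_mul]
    have ht0 : psi n k T t ≠ 0 := by
      intro h
      rw [h, mul_zero] at h3
      exact hGD0 h3
    have h4 : GD.totalDegree ≤ G.totalDegree := by
      unfold MvPolynomial.totalDegree
      exact Finset.sup_mono hsub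
    rw [h3, totalDegree_mul_of_isDomain hGne ht0] at h4
    have h5 : (psi n k T t).totalDegree = 0 := by omega
    rw [totalDegree_eq_zero_iff_eq_C] at h5
    set c := coeff 0 (psi n k T t) with hc
    have hcne : c ≠ 0 := by
      intro h
      rw [h, map_zero] at h5
      exact ht0 h5
    have h6 : G = C c⁻¹ * GD := by
      rw [h3, h5, mul_comm G, ← mul_assoc, ← map_mul, inv_mul_cancel₀ hcne, map_one, one_mul]
    have h7 : IsWeightedHomogeneous (wT n T) GD D :=
      weightedHomogeneousComponent_isWeightedHomogeneous _ _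
    have h8 := (isWeightedHomogeneous_C (wT n T) c⁻¹).mul h7
    rw [zero_add] at h8
    rw [h6]
    exact h8
  -- `H` is multihomogeneous
  have hFw : IsWeightedHomogeneous (wT n T) F (rT T d) :=
    (MH_iff T d F).1 (fun m hm l _ => hF m hm l (Set.mem_univ l))
  have hGHw : IsWeightedHomogeneous (wT n T) (G * H) (rT T d) := by
    rw [← hF0]
    exact psi_phi_wh T z0 F _ hFw
  have hHdeg : ∀ e, coeff e H ≠ 0 → Finsupp.weight (wT n T) e + D = rT T d := by
    intro e he
    have h1 := component_mul (wT n T) G D (Finsupp.weight (wT n T) e) hGw H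
    by_contra hne
    rw [hGHw.weightedHomogeneousComponent_ne _ hne] at h1
    rcases mul_eq_zero.1 h1.symm with h2 | h2
    · exact hGne h2
    · have h3 := congrArg (coeff e) h2
      rw [coeff_weightedHomogeneousComponent, if_pos rfl, coeff_zero] at h3
      exact he h3
  obtain ⟨eH, heH⟩ := ne_zero_iff.1 hHne
  set E : κ → ℕ := Finsupp.weight (wT n T) eH with hE
  have hHw : IsWeightedHomogeneous (wT n T) H E := by
    intro e he
    exact add_right_cancel ((hHdeg e he).trans (hHdeg eH heH).symm)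
  have hrE : rT T E = E := by
    funext j
    rw [rT]
    split_ifs with hj
    · rfl
    · rw [hE, weight_wT, if_neg hj]
  -- constants
  have hconst : ∀ (q : MvPolynomial {s : Pc n // s.1 ∈ T} k) (A : κ → ℕ),
      IsWeightedHomogeneous (wT n T) (psi n k T q) A → (∀ j ∈ T, A j = 0) →
      ∃ c : k, q = C c := by
    intro q A hq hA
    refine ⟨coeff 0 (psi n k T q), psi_injective T ?_⟩
    rw [psi_C]
    ext e
    rw [coeff_C]
    split_ifs with he
    · rw [← he]
    · by_contra hne
      apply he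
      symm
      ext s
      rw [Finsupp.zero_apply]
      by_contra hs
      have hsT : s.1 ∈ T := by
        have h1 : s ∈ (psi n k T q).vars :=
          (mem_vars_iff_mem_support _).2 ⟨e, mem_support_iff.2 hne, Finsupp.mem_support_iff.2 hs⟩
        obtain ⟨t, _, rfl⟩ := Finset.mem_image.1 (vars_rename _ _ h1)
        exact t.2
      have h1 := congrFun (hq hne) s.1
      rw [weight_wT, if_pos hsT, hA s.1 hsT] at h1
      exact hs (Finset.sum_eq_zero_iff.1 h1 s.2 (Finset.mem_univ _))
  obtain ⟨m, hmT, hEm⟩ : ∃ m ∈ T, E m ≠ 0 := by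
    by_contra hne
    push Not at hne
    obtain ⟨c, hc⟩ := hconst h0 E hHw hne
    apply hu
    rw [hc]
    refine (isUnit_iff_ne_zero.2 ?_).map C
    rintro rfl
    rw [map_zero] at hc
    exact hh0ne hc
  obtain ⟨m', hmT', hDm'⟩ : ∃ m ∈ T, D m ≠ 0 := by
    by_contra hne
    push Not at hne
    obtain ⟨c, hc⟩ := hconst g D hGw hne
    apply hg.not_isUnit
    rw [hc]
    refine (isUnit_iff_ne_zero.2 ?_).map C
    rintro rfl
    rw [map_zero] at hc
    exact hg.ne_zero hc
  -- points of the variety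
  have hVan : ∀ y : Pc n → k, (∀ s : Pc n, s.1 ∉ T → y s = z0 s) → eval y G = 0 → Van P y := by
    intro y hy hyG q hq
    have h1 : (phi T z0 q) ∈ P0 := (hmem q).1 hq
    rw [hPg, Ideal.mem_span_singleton] at h1
    obtain ⟨t, ht⟩ := h1
    have h2 : ∀ r ∈ Fro (T : Set κ) z0, eval y r = 0 := by
      intro r hr
      have h3 : Fro (T : Set κ) z0 ≤ RingHom.ker (eval y) := by
        unfold Fro
        rw [Ideal.span_le]
        rintro _ ⟨s, hs, rfl⟩
        show eval y (X s - C (z0 s)) = 0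
        rw [map_sub, eval_X, eval_C, hy s hs, sub_self]
      exact h3 hr
    have h3 := h2 _ (sub_psi_phi_mem T z0 q)
    rw [map_sub, ht, map_mul, map_mul, hyG, zero_mul, sub_zero] at h3
    exact h3
  -- the base point
  have hzero : ∀ (b : Pc n → k), (∀ s : Pc n, s.1 ∉ T → b s = z0 s) → Nz (T : Set κ) b →
      ∀ j ∈ T, D j ≠ 0 → ∀ Ex : Finset (Fin (n j + 1) → k), (∀ v ∈ Ex, v ≠ 0) →
      ∃ v : Fin (n j + 1) → k, Van P (upd b j v) ∧ Nz (T : Set κ) (upd b j v) ∧
        ∀ x ∈ Ex, ¬ ∃ c : k, ∀ i, v i = c * x i := by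
    intro b hb hbn j hj hDj Ex hEx
    obtain ⟨v, hv0, hv, hvE⟩ := inf' (n j) k (hn j) (res b j G) (D j) hDj
      (res_isHomogeneous T j hj b G D hGw) Ex hEx
    refine ⟨v, hVan _ ?_ ?_, ?_, hvE⟩
    · intro s hs
      have : s.1 ≠ j := by rintro h; exact hs (h ▸ hj)
      rw [upd_of_ne _ _ _ _ this]
      exact hb s hs
    · rw [← eval_res]; exact hv
    · intro j' hj'
      by_cases h : j' = j
      · subst h
        by_contra hne
        push Not at hne
        apply hv0
        funext i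
        have := hne i
        rwa [upd_same'] at this
      · obtain ⟨i, hi⟩ := hbn j' hj'
        exact ⟨i, by rw [upd_of_ne _ _ _ _ h]; exact hi⟩
  set b : Pc n → k := fun s => if s.1 ∈ T then 1 else z0 s with hb
  have hb0 : ∀ s : Pc n, s.1 ∉ T → b s = z0 s := by
    intro s hs
    simp [hb, hs]
  have hb1 : Nz (T : Set κ) b := by
    intro j hj
    refine ⟨0, ?_⟩
    have : j ∈ T := Finset.mem_coe.1 hj
    simp [hb, this]
  obtain ⟨y, y', hy, hy', hny, hny', hnp⟩ : ∃ y y' : Pc n → k, Van P y ∧ Van P y' ∧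
      Nz (T : Set κ) y ∧ Nz (T : Set κ) y' ∧ ¬ ∃ c : k, ∀ i, y' ⟨m, i⟩ = c * y ⟨m, i⟩ := by
    by_cases hDm : D m = 0
    · have hmm : m ≠ m' := by rintro rfl; exact hDm' hDm
      -- two base points
      have hpt : ∀ w : Fin (n m + 1) → k, w ≠ 0 → ∃ y : Pc n → k, Van P y ∧ Nz (T : Set κ) y ∧
          ∀ i, y ⟨m, i⟩ = w i := by
        intro w hw
        obtain ⟨v, hv1, hv2, -⟩ := hzero (upd b m w) (by
          intro s hs
          have : s.1 ≠ m := by rintro h; exact hs (h ▸ hmT)
          rw [upd_of_ne _ _ _ _ this]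
          exact hb0 s hs) (by
          intro j' hj'
          by_cases h : j' = m
          · subst h
            by_contra hne
            push Not at hne
            apply hw
            funext i
            have := hne i
            rwa [upd_same'] at this
          · obtain ⟨i, hi⟩ := hb1 j' hj'
            exact ⟨i, by rw [upd_of_ne _ _ _ _ h]; exact hi⟩) m' hmT' hDm' ∅ (by simp)
        refine ⟨_, hv1, hv2, fun i => ?_⟩
        rw [upd_of_ne _ _ _ _ hmm, upd_same']
      have hnm := hn m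
      obtain ⟨y, h1, h2, h3⟩ := hpt (Pi.single 0 1) (by
        intro h
        have := congrFun h 0
        simp at this)
      obtain ⟨y', h1', h2', h3'⟩ := hpt (Pi.single ⟨1, by omega⟩ 1) (by
        intro h
        have := congrFun h ⟨1, by omega⟩
        simp at this)
      refine ⟨y, y', h1, h1', h2, h2', ?_⟩
      rintro ⟨c, hc⟩
      have h4 := hc ⟨1, by omega⟩
      rw [h3, h3', Pi.single_eq_same, Pi.single_eq_of_ne (by
        intro h; simp [Fin.ext_iff] at h), mul_zero] at h4
      exact one_ne_zero h4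
    · obtain ⟨v, hv1, hv2, -⟩ := hzero b hb0 hb1 m hmT hDm ∅ (by simp)
      obtain ⟨i, hi⟩ := hv2 m (Finset.mem_coe.2 hmT)
      have hv0 : v ≠ 0 := by
        rintro rfl
        rw [upd_same'] at hi
        exact hi rfl
      obtain ⟨v', hv1', hv2', hv3'⟩ := hzero b hb0 hb1 m hmT hDm {v} (by simpa using hv0)
      refine ⟨_, _, hv1, hv1', hv2, hv2', ?_⟩
      rintro ⟨c, hc⟩
      apply hv3' v (Finset.mem_singleton_self v)
      refine ⟨c, fun i => ?_⟩
      have := hc i
      rwa [upd_same', upd_same'] at this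
  obtain ⟨z, hz, hzn, hzH⟩ := ln κ n k T P hP hyp.ste z0 hyp.fro y y' hy hy' hny hny' m hmT hnp
    H E ((MH_iff T E H).2 (by rw [hrE]; exact hHw)) hEm
  obtain ⟨j, hj, i', hi'⟩ := hyp.sm z hz hzn
  apply hi'
  have h1 := hFroP (sub_psi_phi_mem T z0 (pderiv ⟨j, i'⟩ F))
  have h2 := hz _ h1
  have h3 : psi n k T (phi T z0 (pderiv ⟨j, i'⟩ F)) = pderiv ⟨j, i'⟩ (G * H) := by
    rw [← hF0]
    have e1 := pderiv_phi T z0 ⟨⟨j, i'⟩, hj⟩ F
    have e2 := pderiv_psi T ⟨⟨j, i'⟩, hj⟩ (phi T z0 F)
    rw [e1] at e2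
    exact e2.symm
  rw [map_sub, h3, pderiv_mul, map_add, map_mul, map_mul, hzH, hz G hGP, mul_zero, zero_mul,
    add_zero, sub_zero] at h2
  exact h2

end Pool.Agent.Q16.ST
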