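import Pool.Agent.Q16.ST.Gen
import Pool.Agent.Y200.CY.Gs

set_option autoImplicit false
set_option linter.unusedSectionVars false

namespace Pool.Agent.Q16.ST

open MvPolynomial Pool.Agent.Q35.ST

section

variable {κ : Type} [Fintype κ] [DecidableEq κ] {n : κ → ℕ} {k N : Type} [Field k] [Field N]
  [Algebra k N]

theorem eval_bc {σ : Type} (z : σ → N) (f : MvPolynomial σ k) :
    eval z (map (algebraMap k N) f) = aeval z f := by
  rw [eval_map, aeval_def]

/-- the inclusion of the variables of the factor `l` and of the factors in `R` -/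
def incl (n : κ → ℕ) (R : Finset κ) (l : κ) : Fin (n l + 1) ⊕ {s : Pc n // s.1 ∈ R} → Pc n :=
  Sum.elim (fun i => ⟨l, i⟩) Subtype.val

theorem incl_injective (R : Finset κ) (l : κ) (hl : l ∉ R) :
    Function.Injective (incl n R l) := by
  rintro (i | s) (j | t) h
  · simp only [incl, Sum.elim_inl, Sigma.mk.injEq, heq_eq_eq, true_and] at h
    rw [h]
  · exfalso
    have h1 : (⟨l, i⟩ : Pc n) = t.1 := h
    exact hl (by have := t.2; rw [← h1] at this; exact this)
  · exfalso
    have h1 : s.1 = (⟨l, j⟩ : Pc n) := h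
    exact hl (by have := s.2; rw [h1] at this; exact this)
  · exact congrArg Sum.inr (Subtype.ext h)

theorem exists_incl (R : Finset κ) (l : κ) (hl : l ∉ R) (f : MvPolynomial (Pc n) k)
    (hf : ∀ s ∈ f.vars, s.1 ∈ R ∨ s.1 = l) :
    ∃ f' : MvPolynomial (Fin (n l + 1) ⊕ {s : Pc n // s.1 ∈ R}) k,
      rename (incl n R l) f' = f := by
  refine exists_rename_eq_of_vars_subset_range f _ (incl_injective R l hl) ?_
  intro s hs
  rcases hf s hs with h | h
  · exact ⟨Sum.inr ⟨s, h⟩, rfl⟩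
  · obtain ⟨j, i⟩ := s
    simp only at h
    subst h
    exact ⟨Sum.inl i, rfl⟩

/-- the fibre of `f` over the generic point, as a polynomial in the variables of the factor `l` -/
theorem res_bc (R : Finset κ) (l : κ) (hl : l ∉ R) (ζ : Pc n → N)
    (f' : MvPolynomial (Fin (n l + 1) ⊕ {s : Pc n // s.1 ∈ R}) k) :
    res ζ l (map (algebraMap k N) (rename (incl n R l) f')) =
      map (aeval (fun s : {s : Pc n // s.1 ∈ R} => ζ s.1) : MvPolynomial _ k →ₐ[k] N).toRingHom
        (sumAlgEquiv k _ _ f') := by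
  induction f' using MvPolynomial.induction_on with
  | C c =>
    rw [rename_C, map_C, res_C, sumAlgEquiv_C_inl, map_C]
    congr 1
    show algebraMap k N c = aeval _ (C c)
    rw [aeval_C]
  | add p q hp hq => simp only [map_add, hp, hq]
  | mul_X p s hp =>
    rw [map_mul, map_mul, map_mul, map_mul, map_mul, hp]
    congr 1
    rcases s with i | s
    · rw [rename_X, map_X]
      show res ζ l (X ⟨l, i⟩) = _
      rw [res_X_same]
      simp
    · rw [rename_X, map_X]
      have hs : s.1.1 ≠ l := by rintro h; exact hl (h ▸ s.2)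
      show res ζ l (X s.1) = _
      rw [res_X_ne _ _ _ hs]
      simp

theorem sub_rename_res_mem (R T' : Finset κ) (l : κ) (hl : l ∉ R) (hRT : ∀ j ∈ R, j ∉ T')
    (ζ : Pc n → N) (f' : MvPolynomial (Fin (n l + 1) ⊕ {s : Pc n // s.1 ∈ R}) k) :
    map (algebraMap k N) (rename (incl n R l) f') - rename (fun i => (⟨l, i⟩ : Pc n))
      (res ζ l (map (algebraMap k N) (rename (incl n R l) f'))) ∈ Fro (T' : Set κ) ζ := by
  induction f' using MvPolynomial.induction_on with
  | C c =>
    rw [rename_C, map_C, res_C, rename_C, sub_self]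
    exact Ideal.zero_mem _
  | add p q hp hq =>
    simp only [map_add]
    rw [add_sub_add_comm]
    exact Ideal.add_mem _ hp hq
  | mul_X p s hp =>
    rw [map_mul, map_mul, map_mul, map_mul]
    have h1 : map (algebraMap k N) (rename (incl n R l) (X s)) - rename (fun i => (⟨l, i⟩ : Pc n))
        (res ζ l (map (algebraMap k N) (rename (incl n R l) (X s)))) ∈ Fro (T' : Set κ) ζ := by
      rcases s with i | s
      · rw [rename_X, map_X]
        show X (⟨l, i⟩ : Pc n) - rename _ (res ζ l (X ⟨l, i⟩)) ∈ _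
        rw [res_X_same, rename_X, sub_self]
        exact Ideal.zero_mem _
      · rw [rename_X, map_X]
        have hs : s.1.1 ≠ l := by rintro h; exact hl (h ▸ s.2)
        show X s.1 - rename _ (res ζ l (X s.1)) ∈ _
        rw [res_X_ne _ _ _ hs, rename_C]
        unfold Fro
        exact Ideal.subset_span ⟨s.1, fun h => hRT _ s.2 (Finset.mem_coe.1 h), rfl⟩
    have h2 : ∀ a b c d : MvPolynomial (Pc n) N, a * b - c * d = (a - c) * b + c * (b - d) := by
      intro a b c d; ring
    rw [h2]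
    exact Ideal.add_mem _ (Ideal.mul_mem_right _ _ hp) (Ideal.mul_mem_left _ _ h1)

end

theorem a2 (mn : S_MIN) (ll : S_LL) (pr : S_PR) (ul : S_UL) (cz : S_CZ) : S_A2 := by
  intro κ _ _ n k _ _ _ F d hF hd hn T z0 P hyp R hRT hcard hRfree hl0
  classical
  obtain ⟨N, _, _, _, _, ζ, hζ⟩ := exists_generic P hyp.prime
  set T' := T \ R with hT'
  have hT'T : ∀ l ∈ T', l ∈ T := fun l hl => (Finset.mem_sdiff.1 hl).1
  have hT'R : ∀ l ∈ T', l ∉ R := fun l hl => (Finset.mem_sdiff.1 hl).2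
  have hRT' : ∀ l ∈ R, l ∉ T' := fun l hl h => hT'R l h hl
  let φ : MvPolynomial (Pc n) k →+* MvPolynomial (Pc n) N := map (algebraMap k N)
  have hφζ : ∀ f, eval ζ (φ f) = 0 ↔ f ∈ P := by
    intro f
    show eval ζ (map (algebraMap k N) f) = 0 ↔ _
    rw [eval_bc, hζ]
  have hζ0 : ∀ s : Pc n, s.1 ∉ T → ζ s = algebraMap k N (z0 s) := by
    intro s hs
    have h1 := (hζ _).2 (hyp.fro s hs)
    rw [map_sub, aeval_X, aeval_C] at h1
    exact sub_eq_zero.1 h1
  set FN := φ F with hFN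
  -- the ideal over `N`
  set S : Set (MvPolynomial (Pc n) N) :=
    (φ '' (P : Set (MvPolynomial (Pc n) k))) ∪ {p | ∃ s : Pc n, s.1 ∉ (T' : Set κ) ∧
      p = X s - C (ζ s)} with hS
  have hFroS : Fro (T' : Set κ) ζ ≤ Ideal.span S := Ideal.span_mono Set.subset_union_right
  have hmapS : ∀ f ∈ P, φ f ∈ Ideal.span S := fun f hf =>
    Ideal.subset_span (Or.inl ⟨f, hf, rfl⟩)
  have hker : (RingHom.ker (eval ζ) : Ideal (MvPolynomial (Pc n) N)).IsPrime :=
    RingHom.ker_isPrime _
  have hSker : Ideal.span S ≤ RingHom.ker (eval ζ) := by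
    rw [Ideal.span_le]
    rintro _ (⟨f, hf, rfl⟩ | ⟨s, hs, rfl⟩)
    · exact (hφζ f).2 hf
    · show eval ζ (X s - C (ζ s)) = 0
      rw [map_sub, eval_X, eval_C, sub_self]
  obtain ⟨P', hP', hP'ker⟩ := Ideal.exists_minimalPrimes_le hSker
  have hP'p : P'.IsPrime := hP'.1.1
  have hSP' : Ideal.span S ≤ P' := hP'.1.2
  have hVanζ : Van P' ζ := fun f hf => hP'ker hf
  have hpd : ∀ (s : Pc n) (f : MvPolynomial (Pc n) k), pderiv s (φ f) = φ (pderiv s f) :=
    fun s f => pderiv_map
  have hpdFro : ∀ (l : κ) (i : Fin (n l + 1)) (s : Pc n), l ∈ T' → s.1 ∉ (T' : Set κ) →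
      pderiv (⟨l, i⟩ : Pc n) (X s - C (ζ s) : MvPolynomial (Pc n) N) = 0 := by
    intro l i s hl hs
    rw [map_sub, pderiv_C, sub_zero, pderiv_X_of_ne]
    rintro rfl
    exact hs (Finset.mem_coe.2 hl)
  have hFNP' : FN ∈ P' := hSP' (hmapS F hyp.mem)
  -- stability
  have hstd : ∀ l ∈ T', StD FN P' l := by
    intro l hl i j
    have h1 := mn (Pc n) N ((pderiv ⟨l, i⟩ FN) • pderiv ⟨l, j⟩ - (pderiv ⟨l, j⟩ FN) •
      pderiv ⟨l, i⟩) (Ideal.span S) P' (der_span _ S (by
        rintro _ (⟨f, hf, rfl⟩ | ⟨s, hs, rfl⟩)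
        · show pderiv ⟨l, i⟩ (φ F) * pderiv ⟨l, j⟩ (φ f) -
            pderiv ⟨l, j⟩ (φ F) * pderiv ⟨l, i⟩ (φ f) ∈ _
          rw [hpd, hpd, hpd, hpd, ← map_mul, ← map_mul, ← map_sub]
          exact hmapS _ (hyp.std l (hT'T l hl) i j f hf)
        · show pderiv ⟨l, i⟩ FN * pderiv ⟨l, j⟩ (X s - C (ζ s)) -
            pderiv ⟨l, j⟩ FN * pderiv ⟨l, i⟩ (X s - C (ζ s)) ∈ _
          rw [hpdFro l j s hl hs, hpdFro l i s hl hs, mul_zero, mul_zero, sub_zero]
          exact Ideal.zero_mem _)) hP'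
    exact h1
  have hste : ∀ l ∈ T', StE P' l := by
    intro l hl
    have hD : ∀ f : MvPolynomial (Pc n) N, (∑ i : Fin (n l + 1),
        (X (⟨l, i⟩ : Pc n) : MvPolynomial (Pc n) N) • (pderiv ⟨l, i⟩ :
          Derivation N (MvPolynomial (Pc n) N) (MvPolynomial (Pc n) N))) f =
        ∑ i : Fin (n l + 1), X ⟨l, i⟩ * pderiv ⟨l, i⟩ f := by
      intro f
      have h1 := congrFun (map_sum (Derivation.coeFnAddMonoidHom (R := N)
        (A := MvPolynomial (Pc n) N) (M := MvPolynomial (Pc n) N))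
        (fun i : Fin (n l + 1) => (X (⟨l, i⟩ : Pc n) : MvPolynomial (Pc n) N) •
          (pderiv ⟨l, i⟩ : Derivation N (MvPolynomial (Pc n) N) (MvPolynomial (Pc n) N)))
        Finset.univ) f
      rw [Finset.sum_apply] at h1
      exact h1
    have h1 := mn (Pc n) N (∑ i : Fin (n l + 1),
        (X (⟨l, i⟩ : Pc n) : MvPolynomial (Pc n) N) • (pderiv ⟨l, i⟩ :
          Derivation N (MvPolynomial (Pc n) N) (MvPolynomial (Pc n) N)))
        (Ideal.span S) P' (der_span _ S (by
        rintro _ (⟨f, hf, rfl⟩ | ⟨s, hs, rfl⟩)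
        · rw [hD]
          have h2 : ∑ i : Fin (n l + 1), (X ⟨l, i⟩ : MvPolynomial (Pc n) N) *
              pderiv ⟨l, i⟩ (φ f) = φ (∑ i : Fin (n l + 1), X ⟨l, i⟩ * pderiv ⟨l, i⟩ f) := by
            rw [map_sum]
            refine Finset.sum_congr rfl fun i _ => ?_
            rw [map_mul, hpd]
            congr 1
            exact (map_X _ _).symm
          rw [h2]
          exact hmapS _ (hyp.ste l (hT'T l hl) f hf)
        · rw [hD]
          have h2 : ∑ i : Fin (n l + 1), (X ⟨l, i⟩ : MvPolynomial (Pc n) N) *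
              pderiv ⟨l, i⟩ (X s - C (ζ s)) = 0 := by
            refine Finset.sum_eq_zero fun i _ => ?_
            rw [hpdFro l i s hl hs, mul_zero]
          rw [h2]
          exact Ideal.zero_mem _)) hP'
    intro f hf
    rw [← hD]
    exact h1 f hf
  have hnsζ : ∀ l ∈ T', ∃ i, eval ζ (pderiv ⟨l, i⟩ FN) ≠ 0 := by
    intro l hl
    obtain ⟨i, hi⟩ := hyp.ns l (hT'T l hl)
    refine ⟨i, fun h => hi ?_⟩
    rw [hFN, hpd, hφζ] at h
    exact h
  -- algebraic independence
  have hind : Function.Injective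
      (aeval (fun s : {s : Pc n // s.1 ∈ R} => ζ s.1) : MvPolynomial _ k →ₐ[k] N) := by
    rw [injective_iff_map_eq_zero]
    intro G hG
    have h1 : rename Subtype.val G ∈ P := by
      rw [← hζ, aeval_rename]
      exact hG
    have h2 := hRfree _ h1 (by
      intro s hs
      obtain ⟨t, _, rfl⟩ := Finset.mem_image.1 (vars_rename _ _ hs)
      exact t.2)
    exact rename_injective _ Subtype.val_injective (h2.trans (map_zero _).symm)
  -- the hypersurfaces in the factors
  have hα : ∀ l, ∃ α : MvPolynomial (Fin (n l + 1)) N, l ∈ T' →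
      (Irreducible α ∧ rename (fun i => (⟨l, i⟩ : Pc n)) α ∈ P' ∧
        ∃ e, e ≠ 0 ∧ α.IsHomogeneous e) := by
    intro l
    by_cases hl : l ∈ T'
    · obtain ⟨f, hf, hf0, hfv⟩ := hl0 l hl
      obtain ⟨f', rfl⟩ := exists_incl R l (hT'R l hl) f hfv
      have hf'0 : f' ≠ 0 := by
        rintro rfl
        exact hf0 (map_zero _)
      set g := res ζ l (map (algebraMap k N) (rename (incl n R l) f')) with hg
      have hg0 : g ≠ 0 := by
        rw [hg, res_bc R l (hT'R l hl)]
        intro h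
        have h1 := map_injective (AlgHom.toRingHom _) hind (h.trans (map_zero _).symm)
        exact hf'0 ((sumAlgEquiv k _ _).injective (h1.trans (map_zero _).symm))
      have hgP : rename (fun i => (⟨l, i⟩ : Pc n)) g ∈ P' := by
        have h1 := hSP' (hFroS (sub_rename_res_mem R T' l (hT'R l hl) hRT' ζ f'))
        have h2 := hSP' (hmapS _ hf)
        have h3 := P'.sub_mem h2 h1
        rw [sub_sub_cancel] at h3
        exact h3
      set Pl : Ideal (MvPolynomial (Fin (n l + 1)) N) :=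
        P'.comap (rename (fun i => (⟨l, i⟩ : Pc n)) :
          MvPolynomial (Fin (n l + 1)) N →ₐ[N] MvPolynomial (Pc n) N) with hPl
      have hPlp : Pl.IsPrime := Ideal.comap_isPrime _ P'
      have hmemPl : ∀ q, q ∈ Pl ↔ rename (fun i => (⟨l, i⟩ : Pc n)) q ∈ P' := fun q => Iff.rfl
      have h1 := UniqueFactorizationMonoid.factors_prod hg0
      have h2 : (UniqueFactorizationMonoid.factors g).prod ∈ Pl := by
        obtain ⟨u, hu⟩ := h1.symm
        rw [← hu]
        exact Pl.mul_mem_right _ hgP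
      obtain ⟨α, hαf, hαP⟩ := (hPlp.multiset_prod_mem_iff_exists_mem _).1 h2
      have hαi : Irreducible α := UniqueFactorizationMonoid.irreducible_of_factor α hαf
      refine ⟨α, fun _ => ⟨hαi, hαP, ?_⟩⟩
      have h3 := ll κ n N FN P' hP'p hFNP' l (hstd l hl) α hαi hαP ζ hVanζ (hnsζ l hl)
      have h4 : ∀ q ∈ Pl, α ∣ q := by
        intro q hq
        refine dvd_of_vanish α q hαi fun y hy => ?_
        have h5 := h3 y hy _ hq
        rw [eval_rename] at h5
        have h6 : (upd ζ l y ∘ fun i => (⟨l, i⟩ : Pc n)) = y := by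
          funext i
          exact upd_same' _ _ _ _
        rwa [h6] at h5
      apply homogeneous_of_euler α hαi
      apply h4
      rw [hmemPl]
      have h5 := hste l hl _ hαP
      have h6 : rename (fun i => (⟨l, i⟩ : Pc n)) (∑ i, X i * pderiv i α) =
          ∑ i : Fin (n l + 1), X ⟨l, i⟩ *
            pderiv ⟨l, i⟩ (rename (fun i => (⟨l, i⟩ : Pc n)) α) := by
        rw [map_sum]
        refine Finset.sum_congr rfl fun i _ => ?_
        rw [map_mul, rename_X]
        congr 1
        have hinj : Function.Injective (fun i : Fin (n l + 1) => (⟨l, i⟩ : Pc n)) := by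
          intro i j hij
          simpa using hij
        exact (pderiv_rename hinj i α).symm
      rw [h6]
      exact h5
    · exact ⟨0, fun h => absurd h hl⟩
  choose α hα using hα
  -- the cofactors
  have hFNMH : MH Set.univ d FN := by
    intro m hm l hl
    refine hF m ?_ l hl
    rw [mem_support_iff] at hm ⊢
    intro h0
    apply hm
    show coeff m (map (algebraMap k N) F) = 0
    rw [coeff_map, h0, map_zero]
  have hU : ∀ l, ∃ (U : MvPolynomial (Pc n) N) (u : κ → ℕ), l ∈ T' → (MH Set.univ u U ∧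
      (∀ m, m ≠ l → u m = d m) ∧
      ∀ z : Pc n → N, (∀ y, eval y (α l) = 0 → eval (upd z l y) FN = 0) →
        eval (fun i => z ⟨l, i⟩) (α l) = 0 → eval z U = 0 →
          ∀ i, eval z (pderiv ⟨l, i⟩ FN) = 0) := by
    intro l
    by_cases hl : l ∈ T'
    · obtain ⟨hαi, hαP, e, _, he⟩ := hα l hl
      obtain ⟨U, u, h1, h2, h3⟩ := ul κ n N FN d hFNMH l (α l) e hαi he
      exact ⟨U, u, fun _ => ⟨h1, h2, h3⟩⟩
    · exact ⟨0, 0, fun h => absurd h hl⟩
  choose U u hU using hU
  obtain ⟨z, hz1, hz2, hz3⟩ := cz κ n N T' hcard (fun l _ => hn l) α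
    (fun l hl => (hα l hl).2.2) U u
    (fun l hl m hm j _ => (hU l hl).1 m hm j (Set.mem_univ j))
    (fun l hl m _ hml => by rw [(hU l hl).2.1 m hml]; exact hd m) ζ
  have hpr := pr κ n N FN P' T' hP'p hFNP' hstd α (fun l hl => ⟨(hα l hl).1, (hα l hl).2.1⟩)
    ζ hVanζ hnsζ
  have hVz : Van P' z := hpr z hz1 fun l hl => (hz3 l hl).1
  have hsing : ∀ l ∈ T', ∀ i, eval z (pderiv ⟨l, i⟩ FN) = 0 := by
    intro l hl
    refine (hU l hl).2.2 z ?_ (hz3 l hl).1 (hz3 l hl).2
    intro y hy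
    refine hpr (upd z l y) ?_ ?_ FN hFNP'
    · intro s hs
      have : s.1 ≠ l := by rintro h; exact hs (h ▸ hl)
      rw [upd_of_ne _ _ _ _ this]
      exact hz1 s hs
    · intro m hm
      by_cases h : m = l
      · subst h
        have h1 : (fun i => upd z m y ⟨m, i⟩) = y := by
          funext i; exact upd_same' _ _ _ _
        rw [h1]; exact hy
      · have h1 : (fun i => upd z l y ⟨m, i⟩) = fun i => z ⟨m, i⟩ := by
          funext i
          exact upd_of_ne _ _ _ _ h
        rw [h1]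
        exact (hz3 m hm).1
  -- derivations
  have hindF : AlgebraicIndependent k (fun j : Fin (Fintype.card {s : Pc n // s.1 ∈ R}) =>
      ζ ((Fintype.equivFin {s : Pc n // s.1 ∈ R}).symm j).1) := by
    have h1 : AlgebraicIndependent k (fun s : {s : Pc n // s.1 ∈ R} => ζ s.1) := hind
    exact h1.comp _ (Fintype.equivFin {s : Pc n // s.1 ∈ R}).symm.injective
  have hzall : ∀ l ∈ T, ∀ i, aeval z (pderiv ⟨l, i⟩ F) = 0 := by
    intro l hl i
    by_cases hlR : l ∈ R
    · set s0 : {s : Pc n // s.1 ∈ R} := ⟨⟨l, i⟩, hlR⟩ with hs0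
      obtain ⟨δ, hδ⟩ := Pool.Agent.Y200.CB.exists_der _ hindF
        (fun j => if (Fintype.equivFin {s : Pc n // s.1 ∈ R}).symm j = s0 then 1 else 0)
      have hδ' : ∀ s : {s : Pc n // s.1 ∈ R}, δ (ζ s.1) = if s = s0 then 1 else 0 := by
        intro s
        have h1 := hδ (Fintype.equivFin {s : Pc n // s.1 ∈ R} s)
        simp only [Equiv.symm_apply_apply] at h1
        exact h1
      have h0 : aeval z F = 0 := by
        rw [← eval_bc]
        exact hVz FN hFNP'
      have h1 := Pool.Agent.Y200.CY.Gs.chain δ z F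
      rw [h0, map_zero, Finset.sum_eq_single (⟨l, i⟩ : Pc n)] at h1
      · have h2 : z ⟨l, i⟩ = ζ ⟨l, i⟩ := hz1 _ (hRT' l hlR)
        have h3 : δ (ζ ⟨l, i⟩) = 1 := by
          have := hδ' s0
          rw [if_pos rfl] at this
          exact this
        rw [h2, h3, mul_one] at h1
        exact h1.symm
      · intro s _ hs
        by_cases hsT : s.1 ∈ T
        · by_cases hsR : s.1 ∈ R
          · have h2 : z s = ζ s := hz1 _ (hRT' _ hsR)
            have h3 : δ (ζ s) = 0 := by
              have := hδ' ⟨s, hsR⟩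
              rw [if_neg (fun h => hs (congrArg Subtype.val h))] at this
              exact this
            rw [h2, h3, mul_zero]
          · have hsT' : s.1 ∈ T' := Finset.mem_sdiff.2 ⟨hsT, hsR⟩
            have h2 := hsing s.1 hsT' s.2
            rw [hFN, hpd] at h2
            have h3 : eval z (φ (pderiv s F)) = aeval z (pderiv s F) := eval_bc z _
            rw [← h3]
            have h4 : eval z (φ (pderiv s F)) = 0 := h2
            rw [h4, zero_mul]
        · have hsT' : s.1 ∉ T' := fun h => hsT (hT'T _ h)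
          rw [hz1 s hsT', hζ0 s hsT, δ.map_algebraMap, mul_zero]
      · intro h; exact absurd (Finset.mem_univ _) h
    · have hlT' : l ∈ T' := Finset.mem_sdiff.2 ⟨hl, hlR⟩
      have h2 := hsing l hlT' i
      rw [hFN, hpd] at h2
      have h3 : eval z (φ (pderiv ⟨l, i⟩ F)) = aeval z (pderiv ⟨l, i⟩ F) := eval_bc z _
      rw [← h3]
      exact h2
  have hznz : ∀ l ∈ T, ∃ i, z ⟨l, i⟩ ≠ 0 := by
    intro l hl
    by_cases hlR : l ∈ R
    · obtain ⟨i, hi⟩ := hyp.prop l hl
      refine ⟨i, fun h => hi ?_⟩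
      rw [← hζ, aeval_X, ← hz1 _ (hRT' l hlR)]
      exact h
    · exact hz2 l (Finset.mem_coe.2 (Finset.mem_sdiff.2 ⟨hl, hlR⟩))
  have hznz' : ∀ l, ∃ i : Fin (n l + 1), l ∈ T → z ⟨l, i⟩ ≠ 0 := by
    intro l
    by_cases hl : l ∈ T
    · obtain ⟨i, hi⟩ := hznz l hl
      exact ⟨i, fun _ => hi⟩
    · exact ⟨0, fun h => absurd h hl⟩
  choose iz hiz using hznz'
  have hzP : ∀ f ∈ P, aeval z f = 0 := by
    intro f hf
    rw [← eval_bc]
    exact hVz _ (hSP' (hmapS f hf))
  -- transfer to `k`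
  obtain ⟨z', hz'⟩ := Pool.Agent.Y200.CB.null (k := k) (σ := Pc n ⊕ κ)
    ({p | ∃ f ∈ P, p = rename Sum.inl f} ∪ {p | ∃ l ∈ T, ∃ i, p = rename Sum.inl
      (pderiv (⟨l, i⟩ : Pc n) F)} ∪
      {p | ∃ l ∈ T, p = X (Sum.inl ⟨l, iz l⟩) * X (Sum.inr l) - 1}) N
    (Sum.elim z (fun l => (z ⟨l, iz l⟩)⁻¹)) (by
      rintro p ((⟨f, hf, rfl⟩ | ⟨l, hl, i, rfl⟩) | ⟨l, hl, rfl⟩)
      · rw [aeval_rename]
        exact hzP f hf
      · rw [aeval_rename]
        exact hzall l hl i
      · simp only [map_sub, map_mul, aeval_X, Sum.elim_inl, Sum.elim_inr, map_one]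
        rw [mul_inv_cancel₀ (hiz l hl), sub_self])
  obtain ⟨l, hl, i, hi⟩ := hyp.sm (fun s => z' (Sum.inl s)) (by
    intro f hf
    have h1 := hz' _ (Or.inl (Or.inl ⟨f, hf, rfl⟩))
    rw [eval_rename] at h1
    exact h1) (by
    intro l hl
    have h1 := hz' _ (Or.inr ⟨l, Finset.mem_coe.1 hl, rfl⟩)
    refine ⟨iz l, fun h => ?_⟩
    simp only [map_sub, map_mul, eval_X, map_one] at h1
    have h2 : z' (Sum.inl ⟨l, iz l⟩) = 0 := h
    rw [h2, zero_mul, zero_sub] at h1
    exact neg_ne_zero.2 one_ne_zero h1)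
  apply hi
  have h1 := hz' _ (Or.inl (Or.inr ⟨l, hl, i, rfl⟩))
  rw [eval_rename] at h1
  exact h1

end Pool.Agent.Q16.ST
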