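import Pool.Agent.Q35.ST.Stm

set_option autoImplicit false

namespace Pool.Agent.Q16.ST

open MvPolynomial Pool.Agent.Q35.ST

theorem pderiv_ne_zero {σ k : Type} [Field k] [CharZero k] (f : MvPolynomial σ k) (b : σ)
    (hb : b ∈ f.vars) : pderiv b f ≠ 0 := by
  classical
  obtain ⟨d, hd, hbd⟩ := (mem_vars_iff_mem_support _).1 hb
  rw [ne_zero_iff]
  refine ⟨d - Finsupp.single b 1, ?_⟩
  rw [coeff_pderiv]
  have h1 : d - Finsupp.single b 1 + Finsupp.single b 1 = d := by
    refine tsub_add_cancel_of_le ?_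
    rw [Finsupp.single_le_iff]
    exact Nat.one_le_iff_ne_zero.2 (Finsupp.mem_support_iff.1 hbd)
  rw [h1]
  exact mul_ne_zero (mem_support_iff.1 hd) (Nat.cast_add_one_ne_zero _)

theorem notMem_vars_pderiv {σ k : Type} [Field k] (f : MvPolynomial σ k) (a b : σ)
    (ha : a ∉ f.vars) : a ∉ (pderiv b f).vars := by
  classical
  intro h
  obtain ⟨d, hd, had⟩ := (mem_vars_iff_mem_support _).1 h
  rw [mem_support_iff, coeff_pderiv] at hd
  apply ha
  refine (mem_vars_iff_mem_support _).2 ⟨d + Finsupp.single b 1, ?_, ?_⟩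
  · rw [mem_support_iff]
    exact left_ne_zero_of_mul hd
  · rw [Finsupp.mem_support_iff] at had ⊢
    rw [Finsupp.add_apply]
    omega

theorem totalDegree_pderiv_lt {σ k : Type} [Field k] (f : MvPolynomial σ k) (b : σ)
    (hb : pderiv b f ≠ 0) : (pderiv b f).totalDegree < f.totalDegree := by
  classical
  have key : ∀ d ∈ (pderiv b f).support, (d.sum fun _ e => e) < f.totalDegree := by
    intro d hd
    rw [mem_support_iff, coeff_pderiv] at hd
    have h1 : d + Finsupp.single b 1 ∈ f.support := by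
      rw [mem_support_iff]
      exact left_ne_zero_of_mul hd
    have h2 := le_totalDegree h1
    rw [Finsupp.sum_add_index' (fun _ => rfl) (fun _ _ _ => rfl),
      Finsupp.sum_single_index rfl] at h2
    omega
  obtain ⟨d, hd⟩ := ne_zero_iff.1 hb
  have hpos : 0 < f.totalDegree := lt_of_le_of_lt (Nat.zero_le _) (key d (mem_support_iff.2 hd))
  unfold MvPolynomial.totalDegree
  exact (Finset.sup_lt_iff hpos).2 key

theorem eq_zero_of_free {σ k : Type} [Field k] [CharZero k] (G : MvPolynomial σ k)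
    (B : Set σ) (P : Ideal (MvPolynomial σ k)) (hP : P.IsPrime)
    (hB : ∀ f ∈ P, (∀ i ∈ f.vars, i ∉ B) → f = 0) (a : σ) (hGa : pderiv a G ∉ P)
    (hst : ∀ b ∈ B, ∀ f ∈ P, pderiv a G * pderiv b f - pderiv b G * pderiv a f ∈ P) :
    ∀ N : ℕ, ∀ f ∈ P, a ∉ f.vars → f.totalDegree = N → f = 0 := by
  classical
  intro N
  induction N using Nat.strong_induction_on with
  | _ N ih =>
    intro f hf haf hN
    refine hB f hf fun b hb hbB => ?_
    have h1 := hst b hbB f hf
    rw [pderiv_eq_zero_of_notMem_vars haf, mul_zero, sub_zero] at h1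
    have h2 : pderiv b f ∈ P := (hP.mem_or_mem h1).resolve_left hGa
    have h3 := pderiv_ne_zero f b hb
    exact h3 (ih _ (by rw [← hN]; exact totalDegree_pderiv_lt f b h3) _ h2
      (notMem_vars_pderiv f a b haf) rfl)

/-- the polynomial ring as a polynomial ring in the variable `a` -/
noncomputable def sepEquiv {σ k : Type} [Field k] [DecidableEq σ] (a : σ) :
    MvPolynomial σ k ≃ₐ[k] Polynomial (MvPolynomial {b : σ // b ≠ a} k) :=
  (renameEquiv k (Equiv.optionSubtypeNe a).symm).trans (optionEquivLeft k {b : σ // b ≠ a})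

theorem sepEquiv_symm_C {σ k : Type} [Field k] [DecidableEq σ] (a : σ)
    (c : MvPolynomial {b : σ // b ≠ a} k) :
    (sepEquiv (k := k) a).symm (Polynomial.C c) = rename Subtype.val c := by
  unfold sepEquiv
  rw [AlgEquiv.symm_trans_apply]
  rw [optionEquivLeft_symm_apply]
  rw [Polynomial.aevalTower_C]
  show rename _ (rename some c) = _
  rw [rename_rename]
  congr 1

theorem exists_clear {R K : Type} [CommRing R] [IsDomain R] [Field K] [Algebra R K]
    [IsFractionRing R K] (p : Polynomial K) :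
    ∃ b : R, b ≠ 0 ∧ ∃ q : Polynomial R, q.map (algebraMap R K) =
      Polynomial.C (algebraMap R K b) * p := by
  obtain ⟨b, hbM, hb⟩ := IsLocalization.integerNormalization_spec (nonZeroDivisors R) p
  refine ⟨b, nonZeroDivisors.ne_zero hbM,
    IsLocalization.integerNormalization (nonZeroDivisors R) p, ?_⟩
  rw [hb, ← Polynomial.smul_eq_C_mul, algebraMap_smul]

theorem al : S_AL := by
  intro σ k _ _ _ G B P hP hG hB a ha hGa hst
  classical
  have hfree := eq_zero_of_free G B P hP hB a hGa hst
  have hG0 : G ≠ 0 := by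
    rintro rfl
    rw [map_zero] at hGa
    exact hGa P.zero_mem
  obtain ⟨g, hg, hgG, hgP⟩ : ∃ g, Irreducible g ∧ g ∣ G ∧ g ∈ P := by
    have h1 := UniqueFactorizationMonoid.factors_prod hG0
    have h2 : (UniqueFactorizationMonoid.factors G).prod ∈ P := by
      obtain ⟨u, hu⟩ := h1.symm
      rw [← hu]
      exact P.mul_mem_right _ hG
    obtain ⟨g, hg, hgP⟩ := (hP.multiset_prod_mem_iff_exists_mem _).1 h2
    exact ⟨g, UniqueFactorizationMonoid.irreducible_of_factor g hg,
      UniqueFactorizationMonoid.dvd_of_mem_factors hg, hgP⟩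
  refine ⟨g, hg, hgG, le_antisymm ?_ ((Ideal.span_singleton_le_iff_mem P).2 hgP)⟩
  intro f hf
  rw [Ideal.mem_span_singleton]
  by_contra hdiv
  let E := sepEquiv (k := k) a
  have hconst : ∀ c : MvPolynomial {b : σ // b ≠ a} k, E.symm (Polynomial.C c) ∈ P → c = 0 := by
    intro c hc
    rw [sepEquiv_symm_C] at hc
    have h3 := hfree _ _ hc (by
      intro h4
      obtain ⟨b, -, hb⟩ := Finset.mem_image.1 (vars_rename _ _ h4)
      exact b.2 hb) rfl
    exact rename_injective _ Subtype.val_injective (h3.trans (map_zero _).symm)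
  have hEg : Irreducible (E g) := (MulEquiv.irreducible_iff E).2 hg
  have hdeg : (E g).natDegree ≠ 0 := by
    intro h0
    obtain ⟨c, hc⟩ := Polynomial.natDegree_eq_zero.1 h0
    have hc0 : c = 0 := hconst c (by rw [hc, AlgEquiv.symm_apply_apply]; exact hgP)
    rw [hc0, map_zero] at hc
    exact hEg.ne_zero hc.symm
  have hprim : (E g).IsPrimitive := hEg.isPrimitive hdeg
  let K := FractionRing (MvPolynomial {b : σ // b ≠ a} k)
  have hirr : Irreducible ((E g).map (algebraMap _ K)) :=
    (hprim.irreducible_iff_irreducible_map_fraction_map (K := K)).1 hEg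
  have hnd : ¬ (E g).map (algebraMap _ K) ∣ (E f).map (algebraMap _ K) := by
    intro h
    apply hdiv
    have h3 : E g ∣ E f := hprim.dvd_of_fraction_map_dvd_fraction_map h
    exact (map_dvd_iff E).1 h3
  have hcop : IsCoprime ((E g).map (algebraMap _ K)) ((E f).map (algebraMap _ K)) :=
    (hirr.coprime_iff_not_dvd).2 hnd
  obtain ⟨u, v, huv⟩ := hcop
  obtain ⟨b1, hb1, u1, hu1⟩ := exists_clear (R := MvPolynomial {b : σ // b ≠ a} k) u
  obtain ⟨b2, hb2, v1, hv1⟩ := exists_clear (R := MvPolynomial {b : σ // b ≠ a} k) v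
  have h5 : Polynomial.C (b1 * b2) = Polynomial.C b2 * u1 * E g + Polynomial.C b1 * v1 * E f := by
    apply Polynomial.map_injective (algebraMap _ K) (IsFractionRing.injective _ K)
    rw [Polynomial.map_add, Polynomial.map_mul, Polynomial.map_mul, Polynomial.map_mul,
      Polynomial.map_mul, hu1, hv1, Polynomial.map_C, Polynomial.map_C, Polynomial.map_C]
    rw [map_mul, map_mul]
    linear_combination (-(Polynomial.C (algebraMap (MvPolynomial {b : σ // b ≠ a} k) K b1) *
      Polynomial.C (algebraMap (MvPolynomial {b : σ // b ≠ a} k) K b2))) * huv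
  have h6 : b1 * b2 = 0 := by
    apply hconst
    rw [h5]
    simp only [map_add, map_mul, AlgEquiv.symm_apply_apply]
    exact P.add_mem (P.mul_mem_left _ hgP) (P.mul_mem_left _ hf)
  exact mul_ne_zero hb1 hb2 h6

end Pool.Agent.Q16.ST
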