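import Pool.Agent.Q16.ST.PR

set_option autoImplicit false
set_option linter.unusedSectionVars false

namespace Pool.Agent.Q16.ST

open MvPolynomial Pool.Agent.Q35.ST

/-- a generic point over an algebraically closed field -/
theorem exists_generic {σ k : Type} [Field k] [CharZero k] (P : Ideal (MvPolynomial σ k))
    (hP : P.IsPrime) : ∃ (N : Type) (_ : Field N) (_ : IsAlgClosed N) (_ : CharZero N)
      (_ : Algebra k N) (ζ : σ → N), ∀ f : MvPolynomial σ k, aeval ζ f = 0 ↔ f ∈ P := by
  have hdom : IsDomain (MvPolynomial σ k ⧸ P) := Ideal.Quotient.isDomain P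
  let A := MvPolynomial σ k ⧸ P
  let K := FractionRing A
  let N := AlgebraicClosure K
  let j : A →+* N := (algebraMap K N).comp (algebraMap A K)
  have hj : Function.Injective j :=
    (algebraMap K N).injective.comp (IsFractionRing.injective A K)
  let _ : Algebra k N := (j.comp (algebraMap k A)).toAlgebra
  have h0 : CharZero N := charZero_of_injective_algebraMap (algebraMap k N).injective
  refine ⟨N, inferInstance, inferInstance, h0, inferInstance,
    fun s => j (Ideal.Quotient.mk P (X s)), fun f => ?_⟩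
  have h1 : aeval (fun s => j (Ideal.Quotient.mk P (X s))) f = j (Ideal.Quotient.mk P f) := by
    induction f using MvPolynomial.induction_on with
    | C c => rw [aeval_C]; rfl
    | add p q hp hq => rw [map_add, hp, hq, map_add, map_add]
    | mul_X p s hp => rw [map_mul, hp, aeval_X, map_mul, map_mul]
  rw [h1, map_eq_zero_iff j hj, Ideal.Quotient.eq_zero_iff_mem]

/-- derivations and generators -/
theorem der_span {k A : Type} [CommRing k] [CommRing A] [Algebra k A] (D : Derivation k A A)
    (S : Set A) (h : ∀ g ∈ S, D g ∈ Ideal.span S) : ∀ f ∈ Ideal.span S, D f ∈ Ideal.span S := by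
  intro f hf
  refine Submodule.span_induction (p := fun f _ => D f ∈ Ideal.span S) ?_ ?_ ?_ ?_ hf
  · exact h
  · rw [map_zero]; exact Ideal.zero_mem _
  · intro x y _ _ hx hy
    rw [map_add]; exact Ideal.add_mem _ hx hy
  · intro a x hx hDx
    rw [smul_eq_mul, D.leibniz, smul_eq_mul, smul_eq_mul]
    exact Ideal.add_mem _ (Ideal.mul_mem_left _ _ hDx) (Ideal.mul_mem_right _ _ hx)

theorem coeff_euler' {σ k : Type} [Fintype σ] [Field k] (f : MvPolynomial σ k) (d : σ →₀ ℕ) :
    coeff d (∑ i, X i * pderiv i f) = (∑ i, d i : ℕ) * coeff d f := by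
  classical
  rw [coeff_sum, Nat.cast_sum, Finset.sum_mul]
  refine Finset.sum_congr rfl fun i _ => ?_
  rw [coeff_X_mul']
  split_ifs with h
  · rw [coeff_pderiv]
    have h1 : 1 ≤ d i := Nat.one_le_iff_ne_zero.2 (Finsupp.mem_support_iff.1 h)
    have h2 : d - Finsupp.single i 1 + Finsupp.single i 1 = d :=
      tsub_add_cancel_of_le (Finsupp.single_le_iff.2 h1)
    rw [h2, mul_comm]
    congr 1
    rw [Finsupp.tsub_apply, Finsupp.single_eq_same]
    rw [← Nat.cast_add_one, Nat.sub_add_cancel h1]
  · rw [Finsupp.notMem_support_iff.1 h, Nat.cast_zero, zero_mul]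

/-- an irreducible polynomial which generates an ideal stable under the Euler derivation is
homogeneous -/
theorem homogeneous_of_euler {σ k : Type} [Fintype σ] [Field k] [CharZero k]
    (α : MvPolynomial σ k) (hα : Irreducible α) (h : α ∣ ∑ i, X i * pderiv i α) :
    ∃ e, e ≠ 0 ∧ α.IsHomogeneous e := by
  classical
  obtain ⟨c, hc⟩ := h
  have hα0 := hα.ne_zero
  have hcC : ∃ c0 : k, c = C c0 := by
    by_cases hc0 : c = 0
    · exact ⟨0, by rw [hc0, map_zero]⟩
    · have h1 : (∑ i, X i * pderiv i α).totalDegree ≤ α.totalDegree := by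
        unfold MvPolynomial.totalDegree
        refine Finset.sup_mono fun d hd => ?_
        rw [mem_support_iff, coeff_euler'] at hd
        rw [mem_support_iff]
        exact right_ne_zero_of_mul hd
      rw [hc, totalDegree_mul_of_isDomain hα0 hc0] at h1
      have h2 : c.totalDegree = 0 := by omega
      rw [totalDegree_eq_zero_iff_eq_C] at h2
      exact ⟨_, h2⟩
  obtain ⟨c0, rfl⟩ := hcC
  have hdeg : ∀ d, coeff d α ≠ 0 → ((∑ i, d i : ℕ) : k) = c0 := by
    intro d hd
    have h1 := congrArg (coeff d) hc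
    rw [coeff_euler', mul_comm α, coeff_C_mul] at h1
    exact mul_right_cancel₀ hd h1
  obtain ⟨d0, hd0⟩ := ne_zero_iff.1 hα0
  refine ⟨∑ i, d0 i, ?_, ?_⟩
  · intro h0
    have h1 : α = C (coeff 0 α) := by
      ext d
      rw [coeff_C]
      split_ifs with hd
      · rw [← hd]
      · by_contra hne
        apply hd
        symm
        have h2 : ((∑ i, d i : ℕ) : k) = ((∑ i, d0 i : ℕ) : k) :=
          (hdeg d hne).trans (hdeg d0 hd0).symm
        have h3 : ∑ i, d i = ∑ i, d0 i := Nat.cast_injective h2
        rw [h0] at h3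
        ext i
        exact Finset.sum_eq_zero_iff.1 h3 i (Finset.mem_univ i)
    apply hα.not_isUnit
    rw [h1]
    refine (isUnit_iff_ne_zero.2 ?_).map C
    intro h2
    rw [h2, map_zero] at h1
    exact hα0 h1
  · intro d hd
    have h2 : ((∑ i, d i : ℕ) : k) = ((∑ i, d0 i : ℕ) : k) :=
      (hdeg d hd).trans (hdeg d0 hd0).symm
    have h3 : ∑ i, d i = ∑ i, d0 i := Nat.cast_injective h2
    rw [← h3, Finsupp.weight_apply, Finsupp.sum_fintype _ _ (fun i => by simp)]
    simp

end Pool.Agent.Q16.ST
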