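import Pool.Agent.Q35.ST.Stm

set_option autoImplicit false

namespace Pool.Agent.Q16.ST

open MvPolynomial Pool.Agent.Q35.ST

section

variable {κ : Type} [Fintype κ] [DecidableEq κ] {n : κ → ℕ}

/-- the multigrading by the degrees in the factors in `T` -/
def wT (n : κ → ℕ) (T : Finset κ) : Pc n → κ → ℕ :=
  fun s => if s.1 ∈ T then Pi.single s.1 1 else 0

/-- a multidegree restricted to `T` -/
def rT (T : Finset κ) (u : κ → ℕ) : κ → ℕ := fun l => if l ∈ T then u l else 0

theorem weight_wT (T : Finset κ) (d : Pc n →₀ ℕ) (l : κ) :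
    Finsupp.weight (wT n T) d l = if l ∈ T then ∑ i, d ⟨l, i⟩ else 0 := by
  have h0 : d.sum (fun i c => c • wT n T i) = ∑ i, d i • wT n T i :=
    Finsupp.sum_fintype _ _ (fun i => zero_smul _ _)
  rw [Finsupp.weight_apply, h0, Finset.sum_apply, Fintype.sum_sigma]
  rw [Finset.sum_eq_single l]
  · split_ifs with h
    · refine Finset.sum_congr rfl fun i _ => ?_
      simp [wT, h]
    · refine Finset.sum_eq_zero fun i _ => ?_
      simp [wT, h]
  · intro j _ hj
    refine Finset.sum_eq_zero fun i _ => ?_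
    by_cases h : j ∈ T
    · simp [wT, h, Pi.single_eq_of_ne (Ne.symm hj)]
    · simp [wT, h]
  · intro h; exact absurd (Finset.mem_univ _) h

theorem MH_iff {k : Type} [CommSemiring k] (T : Finset κ) (u : κ → ℕ)
    (f : MvPolynomial (Pc n) k) :
    MH (T : Set κ) u f ↔ IsWeightedHomogeneous (wT n T) f (rT T u) := by
  constructor
  · intro h d hd
    funext l
    rw [weight_wT, rT]
    split_ifs with hl
    · exact h d (mem_support_iff.2 hd) l hl
    · rfl
  · intro h d hd l hl
    have h1 := congrFun (h (mem_support_iff.1 hd)) l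
    rw [weight_wT, rT, if_pos (Finset.mem_coe.1 hl), if_pos (Finset.mem_coe.1 hl)] at h1
    exact h1

variable {k : Type} [Field k]

omit [Fintype κ] in
theorem coeff_euler (l : κ) (f : MvPolynomial (Pc n) k) (d : Pc n →₀ ℕ) :
    coeff d (∑ i : Fin (n l + 1), X ⟨l, i⟩ * pderiv ⟨l, i⟩ f) =
      (∑ i : Fin (n l + 1), d ⟨l, i⟩ : ℕ) * coeff d f := by
  classical
  rw [coeff_sum, Nat.cast_sum, Finset.sum_mul]
  refine Finset.sum_congr rfl fun i _ => ?_
  rw [coeff_X_mul']
  split_ifs with h
  · rw [coeff_pderiv]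
    have h1 : 1 ≤ d ⟨l, i⟩ := Nat.one_le_iff_ne_zero.2 (Finsupp.mem_support_iff.1 h)
    have h2 : d - Finsupp.single ⟨l, i⟩ 1 + Finsupp.single ⟨l, i⟩ 1 = d :=
      tsub_add_cancel_of_le (Finsupp.single_le_iff.2 h1)
    rw [h2, mul_comm]
    congr 1
    rw [Finsupp.tsub_apply, Finsupp.single_eq_same]
    rw [← Nat.cast_add_one, Nat.sub_add_cancel h1]
  · rw [Finsupp.notMem_support_iff.1 h, Nat.cast_zero, zero_mul]

/-- an ideal which is stable under the Euler vector fields contains the components of its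
elements -/
theorem exists_separated [CharZero k] (T : Finset κ) (P : Ideal (MvPolynomial (Pc n) k))
    (hP : ∀ l ∈ T, StE P l) (p : MvPolynomial (Pc n) k) (hp : p ∈ P) (D : κ → ℕ)
    (S : Finset (κ → ℕ)) (hS : ∀ D' ∈ S, ∃ l ∈ T, D' l ≠ D l) :
    ∃ q ∈ P, ∀ d : Pc n →₀ ℕ, (Finsupp.weight (wT n T) d = D → coeff d q = coeff d p) ∧
      (Finsupp.weight (wT n T) d ∈ S → coeff d q = 0) ∧ (coeff d p = 0 → coeff d q = 0) := by
  induction S using Finset.induction_on with
  | empty =>
    exact ⟨p, hp, fun d => ⟨fun _ => rfl, fun h => absurd h (Finset.notMem_empty _), id⟩⟩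
  | insert D' S _ ih =>
    obtain ⟨q, hq, hqc⟩ := ih fun D'' h => hS D'' (Finset.mem_insert_of_mem h)
    obtain ⟨l, hl, hne⟩ := hS D' (Finset.mem_insert_self _ _)
    have hne' : ((D l : ℕ) : k) - (D' l : ℕ) ≠ 0 := by
      rw [sub_ne_zero]
      exact_mod_cast hne.symm
    have hE : (∑ i : Fin (n l + 1), X ⟨l, i⟩ * pderiv ⟨l, i⟩ q) ∈ P := hP l hl q hq
    have hEc : ∀ d, coeff d (∑ i : Fin (n l + 1), X ⟨l, i⟩ * pderiv ⟨l, i⟩ q) =
      (∑ i : Fin (n l + 1), d ⟨l, i⟩ : ℕ) * coeff d q := fun d => coeff_euler l q d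
    generalize (∑ i : Fin (n l + 1), X ⟨l, i⟩ * pderiv ⟨l, i⟩ q) = E at hE hEc
    have hmem : C (((D l : ℕ) : k) - (D' l : ℕ))⁻¹ * (E - C ((D' l : ℕ) : k) * q) ∈ P :=
      P.mul_mem_left _ (P.sub_mem hE (P.mul_mem_left _ hq))
    refine ⟨_, hmem, fun d => ?_⟩
    have hc : coeff d (C (((D l : ℕ) : k) - (D' l : ℕ))⁻¹ * (E - C ((D' l : ℕ) : k) * q)) =
        (((D l : ℕ) : k) - (D' l : ℕ))⁻¹ *
          ((((∑ i : Fin (n l + 1), d ⟨l, i⟩ : ℕ) : k) - (D' l : ℕ)) * coeff d q) := by
      rw [coeff_C_mul, coeff_sub, hEc, coeff_C_mul, sub_mul]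
    rw [hc]
    have hwl : Finsupp.weight (wT n T) d l = ∑ i, d ⟨l, i⟩ := by rw [weight_wT, if_pos hl]
    refine ⟨fun h => ?_, fun h => ?_, fun h => ?_⟩
    · rw [← hwl, h, ← mul_assoc, inv_mul_cancel₀ hne', one_mul]
      exact (hqc d).1 h
    · rcases Finset.mem_insert.1 h with h | h
      · rw [← hwl, h, sub_self, zero_mul, mul_zero]
      · rw [(hqc d).2.1 h, mul_zero, mul_zero]
    · rw [(hqc d).2.2 h, mul_zero, mul_zero]

theorem component_mem [CharZero k] (T : Finset κ) (P : Ideal (MvPolynomial (Pc n) k))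
    (hP : ∀ l ∈ T, StE P l) (p : MvPolynomial (Pc n) k) (hp : p ∈ P) (D : κ → ℕ) :
    weightedHomogeneousComponent (wT n T) D p ∈ P := by
  classical
  by_cases hD : ∀ l ∉ T, D l = 0
  · obtain ⟨q, hq, hqc⟩ := exists_separated T P hP p hp D
      ((p.support.image (Finsupp.weight (wT n T))).erase D) (by
        intro D' h
        rw [Finset.mem_erase, Finset.mem_image] at h
        obtain ⟨hne, d, _, rfl⟩ := h
        by_contra h2
        push Not at h2
        apply hne
        funext l
        by_cases hl : l ∈ T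
        · exact h2 l hl
        · rw [weight_wT, if_neg hl, hD l hl])
    have h1 : weightedHomogeneousComponent (wT n T) D p = q := by
      ext d
      rw [coeff_weightedHomogeneousComponent]
      split_ifs with h
      · exact ((hqc d).1 h).symm
      · by_cases h3 : coeff d p = 0
        · exact ((hqc d).2.2 h3).symm
        · exact ((hqc d).2.1 (Finset.mem_erase.2 ⟨h, Finset.mem_image.2
            ⟨d, mem_support_iff.2 h3, rfl⟩⟩)).symm
    rw [h1]; exact hq
  · push Not at hD
    obtain ⟨l, hl, hne⟩ := hD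
    rw [weightedHomogeneousComponent_eq_zero']
    · exact P.zero_mem
    · intro d _ h
      have h2 := congrFun h l
      rw [weight_wT, if_neg hl] at h2
      exact hne h2.symm

theorem component_mul {σ M : Type} [AddCancelCommMonoid M] (w : σ → M)
    (U : MvPolynomial σ k) (u D : M) (hU : IsWeightedHomogeneous w U u) (g : MvPolynomial σ k) :
    weightedHomogeneousComponent w (D + u) (U * g) = U * weightedHomogeneousComponent w D g := by
  classical
  induction g using MvPolynomial.induction_on' with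
  | monomial e a =>
    have h1 : IsWeightedHomogeneous w (monomial e a) (Finsupp.weight w e) :=
      isWeightedHomogeneous_monomial _ _ _ rfl
    have h2 := hU.mul h1
    by_cases h : Finsupp.weight w e = D
    · rw [h] at h1 h2
      rw [add_comm D u, h2.weightedHomogeneousComponent_same, h1.weightedHomogeneousComponent_same]
    · rw [h2.weightedHomogeneousComponent_ne, h1.weightedHomogeneousComponent_ne, mul_zero]
      · exact fun h3 => h h3.symm
      · rw [add_comm D u]
        exact fun h3 => h (add_left_cancel h3).symm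
  | add p q hp hq => rw [mul_add, map_add, hp, hq, map_add, mul_add]

end

end Pool.Agent.Q16.ST
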