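import Pool.Agent.Q16.ST.Grad

set_option autoImplicit false

namespace Pool.Agent.Q16.ST

open MvPolynomial Pool.Agent.Q35.ST Module

section

variable {κ : Type} [Fintype κ] [DecidableEq κ] {n : κ → ℕ} {k : Type} [Field k]

/-- the monomials in the variables of the factors in `T` of multidegree `D` -/
def monos (n : κ → ℕ) (T : Finset κ) (D : κ → ℕ) : Set (Pc n →₀ ℕ) :=
  {d | (∀ s : Pc n, s.1 ∉ T → d s = 0) ∧ Finsupp.weight (wT n T) d = D}

theorem finite_monos (T : Finset κ) (D : κ → ℕ) : (monos n T D).Finite := by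
  refine (Finsupp.finite_of_nat_weight_le (fun _ : Pc n => 1) (fun _ => one_ne_zero)
    (∑ l, D l)).subset ?_
  rintro d ⟨hd, hD⟩
  show Finsupp.weight (fun _ : Pc n => 1) d ≤ ∑ l, D l
  have h0 : d.sum (fun i c => c • (1 : ℕ)) = ∑ i, d i • (1 : ℕ) :=
    Finsupp.sum_fintype _ _ (fun i => zero_smul _ _)
  rw [Finsupp.weight_apply, h0, Fintype.sum_sigma]
  refine Finset.sum_le_sum fun l _ => ?_
  rw [← hD, weight_wT]
  split_ifs with hl
  · simp
  · simp [hd ⟨l, _⟩ hl]

/-- the space of the functions on the variety given by the forms of multidegree `D` -/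
noncomputable def Wsp (P : Ideal (MvPolynomial (Pc n) k)) (T : Finset κ) (D : κ → ℕ) :
    Submodule k (MvPolynomial (Pc n) k ⧸ P) :=
  Submodule.span k ((fun d => Ideal.Quotient.mk P (monomial d 1)) '' monos n T D)

theorem finiteDimensional_Wsp (P : Ideal (MvPolynomial (Pc n) k)) (T : Finset κ) (D : κ → ℕ) :
    FiniteDimensional k (Wsp P T D) :=
  FiniteDimensional.span_of_finite k ((finite_monos T D).image _)

omit [Fintype κ] [DecidableEq κ] in
theorem mk_C (P : Ideal (MvPolynomial (Pc n) k)) (c : k) :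
    Ideal.Quotient.mk P (C c) = algebraMap k _ c := rfl

theorem mk_monomial_mem (P : Ideal (MvPolynomial (Pc n) k)) (T : Finset κ)
    (z0 : Pc n → k) (hz0 : ∀ s : Pc n, s.1 ∉ T → X s - C (z0 s) ∈ P) (D : κ → ℕ)
    (d : Pc n →₀ ℕ) (hd : Finsupp.weight (wT n T) d = D) :
    Ideal.Quotient.mk P (monomial d 1) ∈ Wsp P T D := by
  classical
  have h1 : d = d.filter (fun s => s.1 ∈ T) + d.filter (fun s => ¬ s.1 ∈ T) :=
    (Finsupp.filter_add_filter_not d _).symm
  have h2 : (monomial d 1 : MvPolynomial (Pc n) k) =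
      monomial (d.filter (fun s => s.1 ∈ T)) 1 * monomial (d.filter (fun s => ¬ s.1 ∈ T)) 1 := by
    rw [monomial_mul, mul_one, ← h1]
  have h3 : ∃ c : k, Ideal.Quotient.mk P (monomial (d.filter (fun s => ¬ s.1 ∈ T)) 1) =
      algebraMap k _ c := by
    refine ⟨∏ s ∈ (d.filter (fun s => ¬ s.1 ∈ T)).support,
      z0 s ^ (d.filter (fun s => ¬ s.1 ∈ T)) s, ?_⟩
    rw [monomial_eq, map_one, one_mul, Finsupp.prod, map_prod, map_prod]
    refine Finset.prod_congr rfl fun s hs => ?_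
    have hs2 : s.1 ∉ T := by
      rw [Finsupp.support_filter, Finset.mem_filter] at hs
      exact hs.2
    rw [map_pow, map_pow]
    congr 1
    rw [← mk_C, Ideal.Quotient.mk_eq_mk_iff_sub_mem]
    exact hz0 s hs2
  obtain ⟨c, hc⟩ := h3
  rw [h2, map_mul, hc, mul_comm, ← Algebra.smul_def]
  refine Submodule.smul_mem _ _ (Submodule.subset_span ⟨_, ⟨fun s hs => ?_, ?_⟩, rfl⟩)
  · exact Finsupp.filter_apply_neg _ _ hs
  · rw [← hd]
    funext l
    rw [weight_wT, weight_wT]
    split_ifs with hl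
    · refine Finset.sum_congr rfl fun i _ => ?_
      exact Finsupp.filter_apply_pos _ _ hl
    · rfl

theorem mk_mem (P : Ideal (MvPolynomial (Pc n) k)) (T : Finset κ)
    (z0 : Pc n → k) (hz0 : ∀ s : Pc n, s.1 ∉ T → X s - C (z0 s) ∈ P) (D : κ → ℕ)
    (f : MvPolynomial (Pc n) k) (hf : IsWeightedHomogeneous (wT n T) f D) :
    Ideal.Quotient.mk P f ∈ Wsp P T D := by
  rw [f.as_sum, map_sum]
  refine Submodule.sum_mem _ fun d hd => ?_
  have e : monomial d (coeff d f) = C (coeff d f) * (monomial d 1 : MvPolynomial (Pc n) k) := by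
    rw [C_mul_monomial, mul_one]
  rw [e, map_mul, mk_C, ← Algebra.smul_def]
  exact Submodule.smul_mem _ _ (mk_monomial_mem P T z0 hz0 D d (hf (mem_support_iff.1 hd)))

omit [Fintype κ] in
theorem mul_mem_Wsp (P : Ideal (MvPolynomial (Pc n) k)) (T : Finset κ) (D E : κ → ℕ)
    (v w : MvPolynomial (Pc n) k ⧸ P) (hv : v ∈ Wsp P T D) (hw : w ∈ Wsp P T E) :
    v * w ∈ Wsp P T (D + E) := by
  have h1 : Wsp P T D * Wsp P T E ≤ Wsp P T (D + E) := by
    unfold Wsp
    rw [Submodule.span_mul_span, Submodule.span_le]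
    rintro _ ⟨_, ⟨d, ⟨hd1, hd2⟩, rfl⟩, _, ⟨e, ⟨he1, he2⟩, rfl⟩, rfl⟩
    refine Submodule.subset_span ⟨d + e, ⟨fun s hs => ?_, ?_⟩, ?_⟩
    · rw [Finsupp.add_apply, hd1 s hs, he1 s hs]
    · rw [map_add, hd2, he2]
    · show Ideal.Quotient.mk P (monomial (d + e) 1) =
        Ideal.Quotient.mk P (monomial d 1) * Ideal.Quotient.mk P (monomial e 1)
      rw [← map_mul, monomial_mul, mul_one]
  exact h1 (Submodule.mul_mem_mul hv hw)

/-- if a form of multidegree `u` divides all forms of multidegree `D + u`, all forms of multidegree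
`u` are multiples of it -/
theorem proportional [IsAlgClosed k] (P : Ideal (MvPolynomial (Pc n) k)) (hP : P.IsPrime)
    (T : Finset κ) (D u : κ → ℕ) (U h : MvPolynomial (Pc n) k ⧸ P) (hU0 : U ≠ 0)
    (hh : h ∈ Wsp P T u)
    (hdiv : ∀ w ∈ Wsp P T (D + u), ∃ g ∈ Wsp P T D, w = U * g)
    (hne : ∃ v ∈ Wsp P T D, v ≠ 0) : ∃ c : k, h = algebraMap k _ c * U := by
  have hdom : IsDomain (MvPolynomial (Pc n) k ⧸ P) := Ideal.Quotient.isDomain P
  let W := Wsp P T D
  have hfd : FiniteDimensional k W := finiteDimensional_Wsp P T D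
  have hnt : Nontrivial W := by
    obtain ⟨v, hv, hv0⟩ := hne
    exact ⟨⟨⟨v, hv⟩, 0, fun h0 => hv0 (congrArg Subtype.val h0)⟩⟩
  let LU : W →ₗ[k] (MvPolynomial (Pc n) k ⧸ P) := (LinearMap.mulLeft k U).comp W.subtype
  have hLU : ∀ v : W, LU v = U * v.1 := fun v => rfl
  have hinj : Function.Injective LU := by
    intro v w hvw
    rw [hLU, hLU] at hvw
    exact Subtype.ext (mul_left_cancel₀ hU0 hvw)
  have hrange : ∀ v : W, h * v.1 ∈ LinearMap.range LU := by
    intro v
    have h1 : h * v.1 ∈ Wsp P T (D + u) := by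
      rw [mul_comm]
      exact mul_mem_Wsp P T D u _ _ v.2 hh
    obtain ⟨g, hg, hgw⟩ := hdiv _ h1
    exact ⟨⟨g, hg⟩, hgw.symm⟩
  let ψ : W →ₗ[k] LinearMap.range LU :=
    LinearMap.codRestrict (LinearMap.range LU) ((LinearMap.mulLeft k h).comp W.subtype) hrange
  let φ : Module.End k W := (LinearEquiv.ofInjective LU hinj).symm.toLinearMap.comp ψ
  have hφ : ∀ v : W, U * (φ v).1 = h * v.1 := by
    intro v
    have h1 : LinearEquiv.ofInjective LU hinj (φ v) = ψ v :=
      (LinearEquiv.ofInjective LU hinj).apply_symm_apply (ψ v)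
    have h2 := congrArg Subtype.val h1
    exact h2
  obtain ⟨c, hc⟩ := Module.End.exists_eigenvalue φ
  obtain ⟨v, hv⟩ := hc.exists_hasEigenvector
  have hv1 : φ v = c • v := hv.apply_eq_smul
  have hv0 : v.1 ≠ 0 := fun h0 => hv.2 (Subtype.ext h0)
  refine ⟨c, ?_⟩
  have h3 := hφ v
  rw [hv1] at h3
  have h4 : (h - algebraMap k _ c * U) * v.1 = 0 := by
    have h5 : ((c • v : W) : MvPolynomial (Pc n) k ⧸ P) = algebraMap k _ c * v.1 := by
      rw [← Algebra.smul_def]; rfl
    rw [h5] at h3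
    linear_combination -h3
  rcases mul_eq_zero.1 h4 with h5 | h5
  · exact sub_eq_zero.1 h5
  · exact absurd h5 hv0

/-- a point with a zero of a form -/
theorem exists_power_mem [IsAlgClosed k] (P : Ideal (MvPolynomial (Pc n) k))
    (T : Finset κ) (U : MvPolynomial (Pc n) k)
    (hno : ∀ z, Van P z → Nz (T : Set κ) z → eval z U ≠ 0) :
    ∃ N : ℕ, ∀ s : (l : κ) → Fin (n l + 1),
      (∏ l ∈ T, X ⟨l, s l⟩ : MvPolynomial (Pc n) k) ^ N ∈ P ⊔ Ideal.span {U} := by
  classical
  have h1 : ∀ s : (l : κ) → Fin (n l + 1), ∃ N : ℕ,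
      (∏ l ∈ T, X ⟨l, s l⟩ : MvPolynomial (Pc n) k) ^ N ∈ P ⊔ Ideal.span {U} := by
    intro s
    have h2 : (∏ l ∈ T, X ⟨l, s l⟩ : MvPolynomial (Pc n) k) ∈
        vanishingIdeal k (zeroLocus k (P ⊔ Ideal.span {U})) := by
      rw [mem_vanishingIdeal_iff]
      intro z hz
      rw [mem_zeroLocus_iff] at hz
      have hzP : Van P z := fun f hf => hz f (Ideal.mem_sup_left hf)
      have hzU : eval z U = 0 :=
        hz U (Ideal.mem_sup_right (Ideal.mem_span_singleton_self U))
      have h3 : ¬ Nz (T : Set κ) z := fun h => hno z hzP h hzU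
      unfold Nz at h3
      push Not at h3
      obtain ⟨l, hl, h4⟩ := h3
      rw [map_prod]
      refine Finset.prod_eq_zero (Finset.mem_coe.1 hl) ?_
      rw [aeval_X]
      exact h4 _
    rw [vanishingIdeal_zeroLocus_eq_radical] at h2
    exact h2
  choose N hN using h1
  refine ⟨Finset.univ.sup N, fun s => ?_⟩
  exact Ideal.pow_mem_of_pow_mem _ (hN s) (Finset.le_sup (Finset.mem_univ s))

omit [Fintype κ] in
theorem monomial_mem_of_large (P : Ideal (MvPolynomial (Pc n) k))
    (T : Finset κ) (U : MvPolynomial (Pc n) k) (N : ℕ)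
    (hN : ∀ s : (l : κ) → Fin (n l + 1),
      (∏ l ∈ T, X ⟨l, s l⟩ : MvPolynomial (Pc n) k) ^ N ∈ P ⊔ Ideal.span {U})
    (d : Pc n →₀ ℕ) (hd : ∀ l ∈ T, (n l + 1) * N ≤ ∑ i, d ⟨l, i⟩) :
    (monomial d 1 : MvPolynomial (Pc n) k) ∈ P ⊔ Ideal.span {U} := by
  classical
  have h1 : ∀ l, ∃ i : Fin (n l + 1), l ∈ T → N ≤ d ⟨l, i⟩ := by
    intro l
    by_cases hl : l ∈ T
    · by_contra hne
      push Not at hne
      have h2 : ∑ i, d ⟨l, i⟩ < (n l + 1) * N := by
        calc ∑ i, d ⟨l, i⟩ < ∑ _i : Fin (n l + 1), N :=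
              Finset.sum_lt_sum_of_nonempty Finset.univ_nonempty fun i _ => (hne i).2
          _ = (n l + 1) * N := by simp
      exact absurd (hd l hl) (not_le.2 h2)
    · exact ⟨0, fun h => absurd h hl⟩
  choose s hs using h1
  have h2 : (∏ l ∈ T, X ⟨l, s l⟩ : MvPolynomial (Pc n) k) ^ N =
      monomial (∑ l ∈ T, Finsupp.single (⟨l, s l⟩ : Pc n) N) 1 := by
    rw [← Finset.prod_pow]
    have h3 : ∀ l ∈ T, (X ⟨l, s l⟩ : MvPolynomial (Pc n) k) ^ N =
        monomial (Finsupp.single (⟨l, s l⟩ : Pc n) N) 1 := fun l _ => X_pow_eq_monomial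
    rw [Finset.prod_congr rfl h3, monomial_sum_one]
  have h3 : (∑ l ∈ T, Finsupp.single (⟨l, s l⟩ : Pc n) N) ≤ d := by
    intro t
    obtain ⟨j, i⟩ := t
    rw [Finsupp.finsetSum_apply]
    by_cases hj : j ∈ T
    · rw [Finset.sum_eq_single j]
      · by_cases hi : i = s j
        · subst hi
          rw [Finsupp.single_eq_same]
          exact hs j hj
        · rw [Finsupp.single_eq_of_ne]
          · exact Nat.zero_le _
          · intro h
            simp only [Sigma.mk.injEq, heq_eq_eq, true_and] at h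
            exact hi h
      · intro l _ hl
        rw [Finsupp.single_eq_of_ne]
        intro h
        exact hl (congrArg Sigma.fst h).symm
      · intro h; exact absurd hj h
    · rw [Finset.sum_eq_zero]
      · exact Nat.zero_le _
      · intro l hl
        rw [Finsupp.single_eq_of_ne]
        intro h
        have h4 : j = l := congrArg Sigma.fst h
        exact hj (h4 ▸ hl)
  have h4 : (monomial d 1 : MvPolynomial (Pc n) k) =
      (∏ l ∈ T, X ⟨l, s l⟩ : MvPolynomial (Pc n) k) ^ N *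
        monomial (d - ∑ l ∈ T, Finsupp.single (⟨l, s l⟩ : Pc n) N) 1 := by
    rw [h2, monomial_mul, mul_one, add_tsub_cancel_of_le h3]
  rw [h4]
  exact Ideal.mul_mem_right _ _ (hN s)

end

theorem ln : S_LN := by
  intro κ _ _ n k _ _ _ T P hP hE z0 hz0 y y' hy hy' hny hny' m hm hnp U u hU hum
  classical
  by_contra hcon
  push Not at hcon
  have hno : ∀ z, Van P z → Nz (T : Set κ) z → eval z U ≠ 0 := hcon
  have hUw := (MH_iff T u U).1 hU
  obtain ⟨N, hN⟩ := exists_power_mem P T U hno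
  set D : κ → ℕ := rT T (fun l => (n l + 1) * N) with hD
  let mk := Ideal.Quotient.mk P
  have hdom : IsDomain (MvPolynomial (Pc n) k ⧸ P) := Ideal.Quotient.isDomain P
  have hU0 : mk U ≠ 0 := by
    intro h
    rw [Ideal.Quotient.eq_zero_iff_mem] at h
    exact hno y hy hny (hy U h)
  -- forms of multidegree `D + u` are divisible by `U`
  have hdiv : ∀ w ∈ Wsp P T (D + rT T u), ∃ g ∈ Wsp P T D, w = mk U * g := by
    have h1 : Wsp P T (D + rT T u) ≤ (Wsp P T D).map (LinearMap.mulLeft k (mk U)) := by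
      unfold Wsp
      rw [Submodule.span_le]
      rintro _ ⟨d, ⟨hd1, hd2⟩, rfl⟩
      have h2 : (monomial d 1 : MvPolynomial (Pc n) k) ∈ P ⊔ Ideal.span {U} := by
        refine monomial_mem_of_large P T U N hN d fun l hl => ?_
        have h3 := congrFun hd2 l
        rw [weight_wT, if_pos hl, Pi.add_apply, hD, rT, if_pos hl] at h3
        rw [h3]
        exact Nat.le_add_right _ _
      obtain ⟨p, hp, q, hq, hpq⟩ := Submodule.mem_sup.1 h2
      obtain ⟨g, rfl⟩ := Ideal.mem_span_singleton'.1 hq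
      have h3 := component_mem T P hE p hp (D + rT T u)
      have h4 : p = monomial d 1 - U * g := by rw [← hpq]; ring
      rw [h4, map_sub, component_mul (wT n T) U (rT T u) D hUw g,
        (isWeightedHomogeneous_monomial (wT n T) d 1 hd2).weightedHomogeneousComponent_same] at h3
      refine ⟨mk (weightedHomogeneousComponent (wT n T) D g), ?_, ?_⟩
      · exact mk_mem P T z0 hz0 D _ (weightedHomogeneousComponent_isWeightedHomogeneous _ _)
      · show mk U * mk (weightedHomogeneousComponent (wT n T) D g) = mk (monomial d 1)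
        rw [← map_mul]
        symm
        exact (Ideal.Quotient.mk_eq_mk_iff_sub_mem _ _).2 h3
    intro w hw
    obtain ⟨g, hg, hgw⟩ := h1 hw
    exact ⟨g, hg, hgw.symm⟩
  -- the space of forms of multidegree `D` is not zero
  have hny2 : ∀ l, ∃ i : Fin (n l + 1), l ∈ T → y ⟨l, i⟩ ≠ 0 := by
    intro l
    by_cases hl : l ∈ T
    · obtain ⟨i, hi⟩ := hny l (Finset.mem_coe.2 hl)
      exact ⟨i, fun _ => hi⟩
    · exact ⟨0, fun h => absurd h hl⟩
  choose iy hiy using hny2
  have hny3 : ∀ l, ∃ i : Fin (n l + 1), l ∈ T → y' ⟨l, i⟩ ≠ 0 := by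
    intro l
    by_cases hl : l ∈ T
    · obtain ⟨i, hi⟩ := hny' l (Finset.mem_coe.2 hl)
      exact ⟨i, fun _ => hi⟩
    · exact ⟨0, fun h => absurd h hl⟩
  choose iy' hiy' using hny3
  have hXw : ∀ (l : κ) (i : Fin (n l + 1)), l ∈ T →
      IsWeightedHomogeneous (wT n T) (X ⟨l, i⟩ : MvPolynomial (Pc n) k) (Pi.single l 1) := by
    intro l i hl
    have h1 := isWeightedHomogeneous_X k (wT n T) (⟨l, i⟩ : Pc n)
    have h2 : wT n T ⟨l, i⟩ = Pi.single l 1 := by simp [wT, hl]
    rwa [h2] at h1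
  have hprod : ∀ (j : (l : κ) → Fin (n l + 1)) (e : κ → ℕ),
      IsWeightedHomogeneous (wT n T) (∏ l ∈ T, (X ⟨l, j l⟩ : MvPolynomial (Pc n) k) ^ e l)
        (rT T e) := by
    intro j e
    have h1 := IsWeightedHomogeneous.prod T
      (fun l => (X ⟨l, j l⟩ : MvPolynomial (Pc n) k) ^ e l) (fun l => e l • Pi.single l 1)
      (fun l hl => (hXw l (j l) hl).pow (e l))
    have h2 : ∑ l ∈ T, e l • (Pi.single l 1 : κ → ℕ) = rT T e := by
      funext l
      rw [Finset.sum_apply, rT]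
      split_ifs with hl
      · rw [Finset.sum_eq_single l]
        · simp
        · intro l' _ h'
          simp [Pi.single_eq_of_ne (Ne.symm h')]
        · intro h; exact absurd hl h
      · refine Finset.sum_eq_zero fun l' hl' => ?_
        have : l ≠ l' := by rintro rfl; exact hl hl'
        simp [Pi.single_eq_of_ne this]
    rwa [h2] at h1
  have hne : ∃ v ∈ Wsp P T D, v ≠ 0 := by
    refine ⟨mk (∏ l ∈ T, (X ⟨l, iy l⟩ : MvPolynomial (Pc n) k) ^ ((n l + 1) * N)),
      mk_mem P T z0 hz0 D _ (hprod iy _), fun h => ?_⟩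
    rw [Ideal.Quotient.eq_zero_iff_mem] at h
    have h1 := hy _ h
    rw [map_prod] at h1
    obtain ⟨l, hl, h2⟩ := Finset.prod_eq_zero_iff.1 h1
    rw [map_pow, eval_X] at h2
    exact pow_ne_zero _ (hiy l hl) h2
  -- a form which is zero at `y` but not at `y'`
  obtain ⟨i1, hi1⟩ : ∃ i1, y' ⟨m, i1⟩ * y ⟨m, iy m⟩ - y' ⟨m, iy m⟩ * y ⟨m, i1⟩ ≠ 0 := by
    by_contra h1
    push Not at h1
    apply hnp
    refine ⟨y' ⟨m, iy m⟩ / y ⟨m, iy m⟩, fun i => ?_⟩
    have h2 := h1 i
    have h3 := hiy m hm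
    rw [div_mul_eq_mul_div, eq_div_iff h3]
    exact sub_eq_zero.1 h2
  set lam : MvPolynomial (Pc n) k :=
    C (y ⟨m, iy m⟩) * X ⟨m, i1⟩ - C (y ⟨m, i1⟩) * X ⟨m, iy m⟩ with hlam
  have hlamw : IsWeightedHomogeneous (wT n T) lam (Pi.single m 1) := by
    rw [← mem_weightedHomogeneousSubmodule]
    refine Submodule.sub_mem _ ?_ ?_
    · rw [mem_weightedHomogeneousSubmodule]
      have h1 := (isWeightedHomogeneous_C (wT n T) (y ⟨m, iy m⟩)).mul (hXw m i1 hm)
      rwa [zero_add] at h1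
    · rw [mem_weightedHomogeneousSubmodule]
      have h1 := (isWeightedHomogeneous_C (wT n T) (y ⟨m, i1⟩)).mul (hXw m (iy m) hm)
      rwa [zero_add] at h1
  set u' : κ → ℕ := fun l => if l = m then u m - 1 else u l with hu'
  set h : MvPolynomial (Pc n) k := lam * ∏ l ∈ T, (X ⟨l, iy' l⟩ : MvPolynomial (Pc n) k) ^ u' l
    with hh
  have hhw : IsWeightedHomogeneous (wT n T) h (rT T u) := by
    have h1 := hlamw.mul (hprod iy' u')
    have h2 : (Pi.single m 1 : κ → ℕ) + rT T u' = rT T u := by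
      funext l
      rw [Pi.add_apply, rT, rT, hu']
      by_cases hlm : l = m
      · subst hlm
        rw [Pi.single_eq_same, if_pos hm, if_pos hm]
        simp only [if_true]
        omega
      · rw [Pi.single_eq_of_ne hlm, zero_add]
        simp only [hlm, if_false]
    rwa [h2] at h1
  obtain ⟨c, hc⟩ := proportional P hP T D (rT T u) (mk U) (mk h) hU0
    (mk_mem P T z0 hz0 _ h hhw) hdiv hne
  have h1 : h - C c * U ∈ P := by
    rw [← Ideal.Quotient.mk_eq_mk_iff_sub_mem, map_mul]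
    exact hc
  have h2 := hy _ h1
  have h3 := hy' _ h1
  have hly : eval y lam = 0 := by
    rw [hlam, map_sub, map_mul, map_mul, eval_C, eval_C, eval_X, eval_X]
    ring
  have hly' : eval y' lam ≠ 0 := by
    rw [hlam, map_sub, map_mul, map_mul, eval_C, eval_C, eval_X, eval_X]
    intro h0
    apply hi1
    linear_combination h0
  have hvy : eval y h = 0 := by rw [hh, map_mul, hly, zero_mul]
  have hvy' : eval y' h ≠ 0 := by
    rw [hh, map_mul, map_prod]
    refine mul_ne_zero hly' (Finset.prod_ne_zero_iff.2 fun l hl => ?_)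
    rw [map_pow, eval_X]
    exact pow_ne_zero _ (hiy' l hl)
  rw [map_sub, hvy, zero_sub, neg_eq_zero, map_mul, eval_C] at h2
  have hc0 : c = 0 := (mul_eq_zero.1 h2).resolve_right (hno y hy hny)
  rw [map_sub, hc0, map_zero, zero_mul, map_zero, sub_zero] at h3
  exact hvy' h3

end Pool.Agent.Q16.ST
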