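import Pool.Agent.Q16.ST.LL

set_option autoImplicit false

namespace Pool.Agent.Q16.ST

open MvPolynomial Pool.Agent.Q35.ST

/-- Nullstellensatz for a hypersurface -/
theorem dvd_of_vanish {σ k : Type} [Finite σ] [Field k] [IsAlgClosed k] (α f : MvPolynomial σ k)
    (hα : Irreducible α) (h : ∀ y, eval y α = 0 → eval y f = 0) : α ∣ f := by
  have hp : (Ideal.span {α} : Ideal (MvPolynomial σ k)).IsPrime :=
    (Ideal.span_singleton_prime hα.ne_zero).2 hα.prime
  have h1 : f ∈ vanishingIdeal k (zeroLocus k (Ideal.span {α} : Ideal (MvPolynomial σ k))) := by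
    rw [mem_vanishingIdeal_iff]
    intro y hy
    rw [mem_zeroLocus_iff] at hy
    have h2 := hy α (Ideal.mem_span_singleton_self α)
    exact h y h2
  rw [IsPrime.vanishingIdeal_zeroLocus] at h1
  exact Ideal.mem_span_singleton.1 h1

theorem irr_vanish {σ k : Type} [Finite σ] [Field k] [IsAlgClosed k] (α f g : MvPolynomial σ k)
    (hα : Irreducible α) (h : ∀ y, eval y α = 0 → eval y f * eval y g = 0) :
    (∀ y, eval y α = 0 → eval y f = 0) ∨ (∀ y, eval y α = 0 → eval y g = 0) := by
  have h1 : α ∣ f * g := dvd_of_vanish α (f * g) hα fun y hy => by rw [map_mul]; exact h y hy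
  rcases hα.prime.dvd_or_dvd h1 with ⟨c, rfl⟩ | ⟨c, rfl⟩
  · left; intro y hy; rw [map_mul, hy, zero_mul]
  · right; intro y hy; rw [map_mul, hy, zero_mul]

section

variable {κ : Type} [DecidableEq κ] {n : κ → ℕ} {k : Type} [Field k]

/-- the substitution of constants for the coordinates of the factor `l` -/
noncomputable def fix (l : κ) (y : Fin (n l + 1) → k) :
    MvPolynomial (Pc n) k →ₐ[k] MvPolynomial (Pc n) k :=
  aeval (upd (fun s => X s) l (fun i => C (y i)))

theorem eval_fix (l : κ) (y : Fin (n l + 1) → k) (z : Pc n → k) (f : MvPolynomial (Pc n) k) :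
    eval z (fix l y f) = eval (upd z l y) f := by
  induction f using MvPolynomial.induction_on with
  | C c =>
    have : fix l y (C c) = C c := (fix l y).commutes c
    rw [this, eval_C, eval_C]
  | add p q hp hq => rw [map_add, map_add, map_add, hp, hq]
  | mul_X p s hp =>
    rw [map_mul, map_mul, map_mul, hp, eval_X]
    congr 1
    unfold fix
    rw [aeval_X]
    obtain ⟨j, i⟩ := s
    by_cases h : j = l
    · subst h
      rw [upd_same', eval_C, upd_same']
    · rw [upd_of_ne _ _ _ _ h, eval_X, upd_of_ne _ _ _ _ h]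

/-- the points with the coordinates of `ζ` outside `M` and with `α l = 0` for `l ∈ M` -/
def Pi' (α : (l : κ) → MvPolynomial (Fin (n l + 1)) k) (ζ : Pc n → k) (M : Finset κ) :
    Set (Pc n → k) :=
  {z | (∀ s : Pc n, s.1 ∉ M → z s = ζ s) ∧ ∀ l ∈ M, eval (fun i => z ⟨l, i⟩) (α l) = 0}

theorem upd_mem_erase (α : (l : κ) → MvPolynomial (Fin (n l + 1)) k) (ζ : Pc n → k)
    (M : Finset κ) (l : κ) (hl : l ∉ M) (z : Pc n → k) (hz : z ∈ Pi' α ζ (insert l M)) :
    upd z l (fun i => ζ ⟨l, i⟩) ∈ Pi' α ζ M := by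
  refine ⟨fun s hs => ?_, fun m hm => ?_⟩
  · obtain ⟨j, i⟩ := s
    by_cases h : j = l
    · subst h; rw [upd_same']
    · rw [upd_of_ne _ _ _ _ h]
      refine hz.1 _ ?_
      rw [Finset.mem_insert]
      push Not
      exact ⟨h, hs⟩
  · have hml : m ≠ l := by rintro rfl; exact hl hm
    have h1 : (fun i => upd z l (fun i => ζ ⟨l, i⟩) ⟨m, i⟩) = fun i => z ⟨m, i⟩ := by
      funext i
      exact upd_of_ne _ _ _ _ hml
    rw [h1]
    exact hz.2 m (Finset.mem_insert_of_mem hm)

theorem upd_mem_insert (α : (l : κ) → MvPolynomial (Fin (n l + 1)) k) (ζ : Pc n → k)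
    (M : Finset κ) (l : κ) (z : Pc n → k) (hz : z ∈ Pi' α ζ M) (hl : l ∉ M)
    (y : Fin (n l + 1) → k) (hy : eval y (α l) = 0) :
    upd z l y ∈ Pi' α ζ (insert l M) := by
  refine ⟨fun s hs => ?_, fun m hm => ?_⟩
  · rw [Finset.mem_insert] at hs
    push Not at hs
    rw [upd_of_ne _ _ _ _ hs.1]
    exact hz.1 s hs.2
  · rcases Finset.mem_insert.1 hm with rfl | hm'
    · have h1 : (fun i => upd z m y ⟨m, i⟩) = y := by
        funext i; exact upd_same' _ _ _ _
      rw [h1]; exact hy
    · have hml : m ≠ l := fun h => hl (h ▸ hm')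
      have h1 : (fun i => upd z l y ⟨m, i⟩) = fun i => z ⟨m, i⟩ := by
        funext i
        exact upd_of_ne _ _ _ _ hml
      rw [h1]
      exact hz.2 m hm'

theorem irr_prod [IsAlgClosed k] (α : (l : κ) → MvPolynomial (Fin (n l + 1)) k) (ζ : Pc n → k)
    (M : Finset κ) (hα : ∀ l ∈ M, Irreducible (α l)) : ∀ f g : MvPolynomial (Pc n) k,
      (∀ z ∈ Pi' α ζ M, eval z f * eval z g = 0) →
      (∀ z ∈ Pi' α ζ M, eval z f = 0) ∨ (∀ z ∈ Pi' α ζ M, eval z g = 0) := by
  induction M using Finset.induction_on with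
  | empty =>
    intro f g h
    have h0 : ∀ z ∈ Pi' α ζ ∅, z = ζ := by
      intro z hz
      funext s
      exact hz.1 s (Finset.notMem_empty _)
    have hζ : ζ ∈ Pi' α ζ ∅ := ⟨fun _ _ => rfl, fun _ h => absurd h (Finset.notMem_empty _)⟩
    rcases mul_eq_zero.1 (h ζ hζ) with h1 | h1
    · left; intro z hz; rw [h0 z hz]; exact h1
    · right; intro z hz; rw [h0 z hz]; exact h1
  | insert l M hl ih =>
    intro f g h
    have ih' := ih fun m hm => hα m (Finset.mem_insert_of_mem hm)
    by_contra hne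
    push Not at hne
    obtain ⟨⟨z, hz, hfz⟩, ⟨z', hz', hgz'⟩⟩ := hne
    have h1 : ∃ y, eval y (α l) = 0 ∧ eval (upd z l y) f ≠ 0 ∧ eval (upd z' l y) g ≠ 0 := by
      by_contra h2
      push Not at h2
      have h3 := irr_vanish (α l) (res z l f) (res z' l g) (hα l (Finset.mem_insert_self l M))
        (fun y hy => by
          rw [eval_res, eval_res]
          by_cases h4 : eval (upd z l y) f = 0
          · rw [h4, zero_mul]
          · rw [h2 y hy h4, mul_zero])
      rcases h3 with h3 | h3
      · have h4 := h3 _ (hz.2 l (Finset.mem_insert_self l M))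
        rw [eval_res, upd_self'] at h4
        exact hfz h4
      · have h4 := h3 _ (hz'.2 l (Finset.mem_insert_self l M))
        rw [eval_res, upd_self'] at h4
        exact hgz' h4
    obtain ⟨y, hy, hy1, hy2⟩ := h1
    have hupd : ∀ w : Pc n → k, upd (upd w l (fun i => ζ ⟨l, i⟩)) l y = upd w l y := by
      intro w
      funext s
      obtain ⟨j, i⟩ := s
      by_cases h : j = l
      · subst h; rw [upd_same', upd_same']
      · rw [upd_of_ne _ _ _ _ h, upd_of_ne _ _ _ _ h, upd_of_ne _ _ _ _ h]
    rcases ih' (fix l y f) (fix l y g) (fun w hw => by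
      rw [eval_fix, eval_fix]
      exact h _ (upd_mem_insert α ζ M l w hw hl y hy)) with h3 | h3
    · have h4 := h3 _ (upd_mem_erase α ζ M l hl z hz)
      rw [eval_fix, hupd] at h4
      exact hy1 h4
    · have h4 := h3 _ (upd_mem_erase α ζ M l hl z' hz')
      rw [eval_fix, hupd] at h4
      exact hy2 h4

end

theorem pr (ll : S_LL) : S_PR := by
  intro κ _ _ n k _ _ _ F P T hP hF hst α hα ζ hζ hns z hz hzα
  classical
  have hαζ : ∀ l ∈ T, eval (fun i => ζ ⟨l, i⟩) (α l) = 0 := by
    intro l hl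
    have h1 := hζ _ (hα l hl).2
    rw [eval_rename] at h1
    exact h1
  have key : ∀ M : Finset κ, M ⊆ T → ∀ w ∈ Pi' α ζ M, Van P w := by
    intro M
    induction M using Finset.induction_on with
    | empty =>
      intro _ w hw
      have h0 : w = ζ := by
        funext s
        exact hw.1 s (Finset.notMem_empty _)
      rw [h0]; exact hζ
    | insert l M hl ih =>
      intro hM
      have hlT : l ∈ T := hM (Finset.mem_insert_self l M)
      have hMT : M ⊆ T := fun m hm => hM (Finset.mem_insert_of_mem hm)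
      obtain ⟨a, ha⟩ := hns l hlT
      have hζM : ζ ∈ Pi' α ζ (insert l M) := ⟨fun _ _ => rfl, fun m hm => hαζ m (hM hm)⟩
      have h2 : ∀ f ∈ P, ∀ w ∈ Pi' α ζ (insert l M), eval w f = 0 := by
        intro f hf
        rcases irr_prod α ζ (insert l M) (fun m hm => (hα m (hM hm)).1)
          (fix l (fun i => ζ ⟨l, i⟩) (pderiv ⟨l, a⟩ F)) f (by
            intro w hw
            rw [eval_fix]
            by_cases h3 : eval (upd w l (fun i => ζ ⟨l, i⟩)) (pderiv ⟨l, a⟩ F) = 0
            · rw [h3, zero_mul]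
            · have h4 := ll κ n k F P hP hF l (hst l hlT) (α l) (hα l hlT).1 (hα l hlT).2
                (upd w l (fun i => ζ ⟨l, i⟩)) (ih hMT _ (upd_mem_erase α ζ M l hl w hw))
                ⟨a, h3⟩ (fun i => w ⟨l, i⟩) (hw.2 l (Finset.mem_insert_self l M)) f hf
              have h5 : upd (upd w l (fun i => ζ ⟨l, i⟩)) l (fun i => w ⟨l, i⟩) = w := by
                funext s
                obtain ⟨j, i⟩ := s
                by_cases h : j = l
                · subst h; rw [upd_same']
                · rw [upd_of_ne _ _ _ _ h, upd_of_ne _ _ _ _ h]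
              rw [h5] at h4
              rw [h4, mul_zero]) with h3 | h3
        · exfalso
          have h4 := h3 ζ hζM
          rw [eval_fix, upd_self'] at h4
          exact ha h4
        · exact h3
      intro w hw f hf
      exact h2 f hf w hw
  exact key T (Finset.Subset.refl T) z ⟨hz, hzα⟩

end Pool.Agent.Q16.ST
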